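import Mathlib
import Pool.Agent.H723R2.LSWWander

/-!
# Entire interpolations of integer maps: the dichotomy for divergent orbits

The arguments are those of the files `H723R2.LSWBase`, `LSWJulia`, `LSWWander` for `f₀`, here for a
general entire function `f` with `f n = U n`, `f' n = 0` and a quadratic estimate near the integers.
-/

set_option autoImplicit false

open Filter Topology Metric Set

namespace Pool.Agent.Q208.WI

open Pool.Agent.H384R2.Fatou Pool.Agent.H723R2.LSW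

/-- Data of an entire interpolation which is real on the real line. -/
structure IData (f : ℂ → ℂ) (g : ℝ → ℝ) (U : ℤ → ℤ) : Prop where
  diff : Differentiable ℂ f
  real : ∀ x : ℝ, ((g x : ℝ) : ℂ) = f (x : ℂ)
  int : ∀ n : ℤ, f (n : ℂ) = (U n : ℂ)
  der : ∀ n : ℤ, HasDerivAt f 0 (n : ℂ)
  near : ∃ C : ℝ, 1 ≤ C ∧ ∀ (m : ℤ) (z : ℂ), ‖z - m‖ ≤ 1 →
    ‖f z - (U m : ℂ)‖ ≤ C * (|(m : ℝ)| + 1) * ‖z - m‖ ^ 2
  growth : ∀ m : ℤ, |((U m : ℤ) : ℝ)| + 1 ≤ 3 * (|(m : ℝ)| + 1)
  nonconst : ∃ a b : ℤ, U a ≠ U b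

variable {f : ℂ → ℂ} {g : ℝ → ℝ} {U : ℤ → ℤ}

theorem IData.isOpen (h : IData f g U) (s : Set ℂ) (hs : IsOpen s) : IsOpen (f '' s) := by
  have h1 := (h.diff.differentiableOn.analyticOnNhd
    isOpen_univ).is_constant_or_isOpen isPreconnected_univ
  rcases h1 with ⟨w, hw⟩ | h1
  · exfalso
    obtain ⟨a, b, hab⟩ := h.nonconst
    have h0 := hw (a : ℂ) (mem_univ _)
    have h2 := hw (b : ℂ) (mem_univ _)
    rw [h.int] at h0 h2
    apply hab
    have : (U a : ℂ) = (U b : ℂ) := by rw [h0, h2]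
    exact_mod_cast this
  · exact h1 s (subset_univ _) hs

theorem IData.cont (h : IData f g U) : Continuous g := by
  have h1 : g = fun x : ℝ => (f (x : ℂ)).re := by
    funext x
    rw [← h.real, Complex.ofReal_re]
  rw [h1]
  exact Complex.continuous_re.comp (h.diff.continuous.comp Complex.continuous_ofReal)

theorem IData.gint (h : IData f g U) (m : ℤ) : g (m : ℝ) = (U m : ℝ) := by
  have h1 : ((g (m : ℝ) : ℝ) : ℂ) = ((U m : ℝ) : ℂ) := by
    rw [h.real]
    have := h.int m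
    push_cast
    exact this
  exact_mod_cast h1

theorem IData.iter (h : IData f g U) (n : ℤ) (k : ℕ) :
    f^[k] (n : ℂ) = ((U^[k] n : ℤ) : ℂ) := by
  induction k with
  | zero => rfl
  | succ k ih => rw [Function.iterate_succ_apply', Function.iterate_succ_apply', ih, h.int]

theorem IData.iter_deriv (h : IData f g U) (n : ℤ) (p : ℕ) (hp : 0 < p) :
    HasDerivAt (f^[p]) 0 (n : ℂ) := by
  obtain ⟨q, rfl⟩ : ∃ q, p = q + 1 := ⟨p - 1, by omega⟩
  have h1 : HasDerivAt (f^[q]) (deriv (f^[q]) (f n)) (f n) :=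
    ((h.diff.iterate q) _).hasDerivAt
  have h2 := h1.comp (n : ℂ) (h.der n)
  simpa using h2

theorem IData.iter_growth (h : IData f g U) (n : ℤ) (k : ℕ) :
    |((U^[k] n : ℤ) : ℝ)| + 1 ≤ 3 ^ k * (|(n : ℝ)| + 1) := by
  induction k with
  | zero => simp
  | succ k ih =>
    rw [Function.iterate_succ_apply']
    have := h.growth (U^[k] n)
    calc _ ≤ 3 * (|((U^[k] n : ℤ) : ℝ)| + 1) := this
      _ ≤ 3 * (3 ^ k * (|(n : ℝ)| + 1)) := by gcongr
      _ = 3 ^ (k + 1) * (|(n : ℝ)| + 1) := by ring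

/-- in a small disc around an integer all orbits follow the orbit of the integer -/
theorem IData.follow (h : IData f g U) (n : ℤ) : ∃ r : ℝ, 0 < r ∧ r ≤ 1 ∧
    ∀ z ∈ ball (n : ℂ) r, ∀ k : ℕ, ‖f^[k] z - ((U^[k] n : ℤ) : ℂ)‖ ≤ r / 4 ^ k := by
  obtain ⟨C, hC1, hC⟩ := h.near
  have hn0 : (0 : ℝ) ≤ |(n : ℝ)| := abs_nonneg _
  set r : ℝ := 1 / (4 * C * (|(n : ℝ)| + 1)) with hr
  have hden : 0 < 4 * C * (|(n : ℝ)| + 1) := by positivity
  have hr0 : 0 < r := by positivity
  have hr1 : r ≤ 1 := by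
    rw [hr, div_le_one hden]
    nlinarith
  have hCr : C * (|(n : ℝ)| + 1) * r = 1 / 4 := by
    rw [hr]; field_simp
  refine ⟨r, hr0, hr1, fun z hz k => ?_⟩
  induction k with
  | zero =>
    rw [mem_ball, dist_eq_norm] at hz
    simpa using hz.le
  | succ k ih =>
    rw [Function.iterate_succ_apply', Function.iterate_succ_apply']
    have h4 : (1 : ℝ) ≤ 4 ^ k := one_le_pow₀ (by norm_num)
    have hle1 : ‖f^[k] z - ((U^[k] n : ℤ) : ℂ)‖ ≤ 1 := by
      refine ih.trans ?_
      rw [div_le_one (by positivity)]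
      linarith
    have h5 := hC (U^[k] n) (f^[k] z) hle1
    have h6 := h.iter_growth n k
    calc ‖f (f^[k] z) - ((U (U^[k] n) : ℤ) : ℂ)‖
        ≤ C * (|((U^[k] n : ℤ) : ℝ)| + 1) * ‖f^[k] z - ((U^[k] n : ℤ) : ℂ)‖ ^ 2 := h5
      _ ≤ C * (3 ^ k * (|(n : ℝ)| + 1)) * (r / 4 ^ k) ^ 2 := by gcongr
      _ = (C * (|(n : ℝ)| + 1) * r) * r * (3 ^ k / (4 ^ k * 4 ^ k)) := by
          field_simp
      _ = r / 4 * (3 ^ k / (4 ^ k * 4 ^ k)) := by rw [hCr]; ring
      _ ≤ r / 4 * (4 ^ k / (4 ^ k * 4 ^ k)) := by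
          gcongr
          norm_num
      _ = r / 4 ^ (k + 1) := by rw [pow_succ]; field_simp

/-- the trajectory of `n` is not eventually periodic -/
def WildU (U : ℤ → ℤ) (n : ℤ) : Prop := ∀ i j : ℕ, U^[i] n = U^[j] n → i = j

theorem wildU_tendsto {n : ℤ} (h : WildU U n) :
    Tendsto (fun k => |((U^[k] n : ℤ) : ℝ)|) atTop atTop := by
  have h1 : Function.Injective (fun k : ℕ => U^[k] n) := fun i j hij => h i j hij
  have h2 : Tendsto (fun k : ℕ => U^[k] n) atTop cofinite := by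
    rw [← Nat.cofinite_eq_atTop]; exact h1.tendsto_cofinite
  rw [Filter.tendsto_atTop]
  intro B
  have h3 : {m : ℤ | |(m : ℝ)| < B}.Finite := by
    apply (Set.finite_Icc (-⌈B⌉) ⌈B⌉).subset
    intro m hm
    rw [Set.mem_ofPred_eq, abs_lt] at hm
    have h5 := Int.le_ceil B
    rw [Set.mem_Icc]
    constructor
    · have : ((-⌈B⌉ : ℤ) : ℝ) < m := by push_cast; linarith
      exact_mod_cast this.le
    · have : (m : ℝ) < ((⌈B⌉ : ℤ) : ℝ) := by linarith
      exact_mod_cast this.le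
  have h4 := h2.eventually h3.compl_mem_cofinite
  filter_upwards [h4] with k hk
  simp only [Set.mem_compl_iff, Set.mem_ofPred_eq, not_lt] at hk
  exact hk

theorem IData.wild_mem_fatou (hd : IData f g U) {n : ℤ} (h : WildU U n) :
    (n : ℂ) ∈ FatouSet f := by
  obtain ⟨r, hr, hr1, hfol⟩ := hd.follow n
  refine ⟨r, hr, fun φ => ?_⟩
  obtain ⟨ψ, hψ, ⟨c, hc⟩ | hinf⟩ := exists_subseq' φ
  · refine ⟨ψ, hψ, Or.inl ⟨f^[c], ?_⟩⟩
    have : (fun j => f^[φ (ψ j)]) = fun _ : ℕ => f^[c] := by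
      funext j; rw [hc j]
    show TendstoLocallyUniformlyOn (fun j => f^[φ (ψ j)]) (f^[c]) atTop (ball (n : ℂ) r)
    rw [this]
    exact tlu_const _ _
  · refine ⟨ψ, hψ, Or.inr ?_⟩
    intro K hK _ R
    have h1 := (wildU_tendsto h).comp hinf
    filter_upwards [h1.eventually (eventually_ge_atTop (R + 1))] with j hj z hz
    have h2 := hfol z (hK hz) (φ (ψ j))
    have h3 : r / 4 ^ (φ (ψ j)) ≤ 1 := by
      rw [div_le_one (by positivity)]
      have : (1 : ℝ) ≤ 4 ^ (φ (ψ j)) := one_le_pow₀ (by norm_num)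
      linarith
    have h4 : ‖((U^[φ (ψ j)] n : ℤ) : ℂ)‖ = |((U^[φ (ψ j)] n : ℤ) : ℝ)| := Complex.norm_intCast _
    have h5 : ‖((U^[φ (ψ j)] n : ℤ) : ℂ)‖ ≤
        ‖f^[φ (ψ j)] z‖ + ‖f^[φ (ψ j)] z - ((U^[φ (ψ j)] n : ℤ) : ℂ)‖ := by
      have := norm_sub_norm_le ((U^[φ (ψ j)] n : ℤ) : ℂ) (f^[φ (ψ j)] z)
      rw [norm_sub_rev] at this
      linarith
    simp only [Function.comp_apply] at hj
    show R ≤ ‖f^[φ (ψ j)] z‖
    linarith

/-- an integer whose trajectory is eventually periodic hits a periodic integer -/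
theorem tameU_hits {n : ℤ} (h : ¬ WildU U n) : ∃ (k p : ℕ) (a : ℤ), 0 < p ∧ U^[p] a = a ∧
    U^[k] n = a := by
  unfold WildU at h
  push Not at h
  obtain ⟨i, j, hij, hne⟩ := h
  wlog hlt : i < j generalizing i j
  · exact this j i hij.symm hne.symm (by omega)
  refine ⟨i, j - i, U^[i] n, by omega, ?_, rfl⟩
  rw [← Function.iterate_add_apply, show j - i + i = j by omega, hij]

/-- every integer lies in the Fatou set -/
theorem IData.int_mem_fatou (hd : IData f g U) (n : ℤ) : (n : ℂ) ∈ FatouSet f := by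
  by_cases h : WildU U n
  · exact hd.wild_mem_fatou h
  · obtain ⟨k, p, a, hp, ha, hk⟩ := tameU_hits h
    exact mem_fatou_of_hits (f := f) (a := (a : ℂ)) (p := p) (k := k)
      hd.diff.continuous hp (by rw [hd.iter, ha]) (hd.iter_deriv a p hp)
      (by rw [hd.iter, hk])

/-- there is a point of the interval `[m, m+1]` outside the Fatou set -/
def JulU (f : ℂ → ℂ) (m : ℤ) : Prop := ∃ x : ℝ, (m : ℝ) ≤ x ∧ x ≤ m + 1 ∧ (x : ℂ) ∉ FatouSet f

theorem IData.jul_step (hd : IData f g U) {m j : ℤ} (hj : JulU f j)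
    (h1 : min (U m) (U (m + 1)) ≤ j) (h2 : j + 1 ≤ max (U m) (U (m + 1))) : JulU f m := by
  obtain ⟨x, hx1, hx2, hx3⟩ := hj
  have hmem : x ∈ uIcc (g (m : ℝ)) (g ((m : ℝ) + 1)) := by
    have e : g ((m : ℝ) + 1) = (U (m + 1) : ℝ) := by
      have := hd.gint (m + 1)
      push_cast at this
      exact this
    rw [e, hd.gint, uIcc, mem_Icc]
    constructor
    · refine le_trans ?_ hx1
      have : ((min (U m) (U (m + 1)) : ℤ) : ℝ) ≤ (j : ℝ) := by exact_mod_cast h1
      rw [Int.cast_min] at this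
      exact this
    · refine le_trans hx2 ?_
      have : ((j + 1 : ℤ) : ℝ) ≤ ((max (U m) (U (m + 1)) : ℤ) : ℝ) := by exact_mod_cast h2
      rw [Int.cast_max] at this
      push_cast at this
      exact this
  obtain ⟨y, hy, hyx⟩ := intermediate_value_uIcc hd.cont.continuousOn hmem
  rw [uIcc_of_le (by linarith : (m : ℝ) ≤ m + 1), mem_Icc] at hy
  refine ⟨y, hy.1, hy.2, fun hyF => hx3 ?_⟩
  have := fatou_forward hd.isOpen hyF
  rw [← hd.real, hyx] at this
  exact this

theorem segU_component {a b : ℝ} (h : ∀ x : ℝ, a ≤ x → x ≤ b → (x : ℂ) ∈ FatouSet f) {x y : ℝ}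
    (hx : x ∈ Icc a b) (hy : y ∈ Icc a b) : (x : ℂ) ∈ FatouComponent f (y : ℂ) := by
  have h1 : (fun t : ℝ => (t : ℂ)) '' Icc a b ⊆ FatouComponent f (y : ℂ) := by
    apply IsPreconnected.subset_connectedComponentIn
    · exact isPreconnected_Icc.image _ Complex.continuous_ofReal.continuousOn
    · exact ⟨y, hy, rfl⟩
    · rintro _ ⟨t, ht, rfl⟩
      exact h t ht.1 ht.2
  exact h1 ⟨x, hx, rfl⟩

/-- an interval with a fixed point and an end point attracted elsewhere -/
theorem IData.jul_fixed (hd : IData f g U) {m e a : ℤ} {k p : ℕ} {x : ℝ} (hp : 0 < p)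
    (ha : U^[p] a = a) (hk : U^[k] e = a) (he : e = m ∨ e = m + 1) (hx1 : (m : ℝ) ≤ x)
    (hx2 : x ≤ m + 1) (hfix : g x = x) (hne : x ≠ a) : JulU f m := by
  by_contra hcon
  have hall : ∀ y : ℝ, (m : ℝ) ≤ y → y ≤ m + 1 → (y : ℂ) ∈ FatouSet f := by
    intro y h1 h2
    by_contra h3
    exact hcon ⟨y, h1, h2, h3⟩
  have hem : ((e : ℤ) : ℝ) ∈ Icc (m : ℝ) (m + 1) := by
    rcases he with rfl | rfl
    · exact ⟨le_refl _, by linarith⟩
    · push_cast; exact ⟨by linarith, le_refl _⟩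
  have hmem : (x : ℂ) ∈ FatouComponent f (e : ℂ) := by
    have := segU_component hall (x := x) (y := (e : ℝ)) ⟨hx1, hx2⟩ hem
    simpa using this
  have hb := basin_of_hits (f := f) (a := (a : ℂ)) (p := p) (k := k) hd.diff hp
    (by rw [hd.iter, ha]) (hd.iter_deriv a p hp) (by rw [hd.iter, hk]) _ hmem
  have hxf : ∀ i : ℕ, f^[i] (x : ℂ) = x := by
    intro i
    have : f (x : ℂ) = x := by rw [← hd.real, hfix]
    exact Function.iterate_fixed this i
  simp only [hxf] at hb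
  have := tendsto_nhds_unique hb tendsto_const_nhds
  apply hne
  exact_mod_cast this.symm

theorem wildU_iter {n : ℤ} (h : WildU U n) (k : ℕ) : WildU U (U^[k] n) := by
  intro i j hij
  have := h (i + k) (j + k) (by rw [Function.iterate_add_apply, Function.iterate_add_apply, hij])
  omega

/-- the Fatou component of an integer with an infinite trajectory is never revisited -/
theorem IData.no_return (hd : IData f g U) {N : ℤ} {p : ℕ} (hw : WildU U N) (hp : 0 < p)
    (hJ : ∀ᶠ i in atTop, JulU f (U^[i] N + 5) ∧ JulU f (U^[i] N - 6))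
    (hfar : ∀ M : ℝ, ∀ᶠ i in atTop, M < |(((U^[p] (U^[i] N)) - U^[i] N : ℤ) : ℝ)|)
    (hU : ((U^[p] N : ℤ) : ℂ) ∈ FatouComponent f (N : ℂ)) : False := by
  set V := FatouComponent f (N : ℂ) with hVdef
  have hNF : (N : ℂ) ∈ FatouSet f := hd.int_mem_fatou N
  have hNV : (N : ℂ) ∈ V := mem_connectedComponentIn hNF
  have hVo : IsOpen V := component_isOpen f N
  have hVF : V ⊆ FatouSet f := connectedComponentIn_subset _ _
  -- invariance
  have hinv1 : ∀ z ∈ V, f^[p] z ∈ V := by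
    intro z hz
    have h1 := component_map hd.diff.continuous hd.isOpen hNF p ⟨z, hz, rfl⟩
    rw [hd.iter] at h1
    have h2 : FatouComponent f ((U^[p] N : ℤ) : ℂ) = V := (connectedComponentIn_eq hU).symm
    rw [h2] at h1
    exact h1
  have hinv : ∀ (i : ℕ), ∀ z ∈ V, f^[p * i] z ∈ V := by
    intro i
    induction i with
    | zero => intro z hz; simpa using hz
    | succ i ih =>
      intro z hz
      rw [mul_add, mul_one, add_comm, Function.iterate_add_apply]
      exact hinv1 _ (ih z hz)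
  set Ni : ℕ → ℤ := fun i => U^[p * i] N with hNi
  have hpi : Tendsto (fun i : ℕ => p * i) atTop atTop := tendsto_id.const_mul_atTop' hp
  set G : ℕ → ℂ → ℂ := fun i z => f^[p * i] z - ((Ni i : ℤ) : ℂ) with hG
  have hGd : ∀ i, Differentiable ℂ (G i) := fun i =>
    (hd.diff.iterate _).sub_const _
  -- omitted values
  have homit : ∀ᶠ i in atTop, ∃ A B : ℝ, 5 ≤ A ∧ A ≤ 6 ∧ -6 ≤ B ∧ B ≤ -5 ∧
      (∀ z ∈ V, G i z ≠ A) ∧ (∀ z ∈ V, G i z ≠ B) := by
    filter_upwards [hpi.eventually hJ] with i hi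
    obtain ⟨⟨x, hx1, hx2, hx3⟩, ⟨y, hy1, hy2, hy3⟩⟩ := hi
    push_cast at hx1 hx2 hy1 hy2
    refine ⟨x - Ni i, y - Ni i, by simp only [hNi]; linarith, by simp only [hNi]; linarith,
      by simp only [hNi]; linarith, by simp only [hNi]; linarith, ?_, ?_⟩
    · intro z hz h
      apply hx3
      have : f^[p * i] z = (x : ℂ) := by
        rw [hG] at h
        push_cast at h
        linear_combination h
      rw [← this]
      exact hVF (hinv i z hz)
    · intro z hz h
      apply hy3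
      have : f^[p * i] z = (y : ℂ) := by
        rw [hG] at h
        push_cast at h
        linear_combination h
      rw [← this]
      exact hVF (hinv i z hz)
  -- local boundedness
  have hloc : ∀ (c : ℂ) (r : ℝ), 0 < r → ball c r ⊆ V → ∀ M : ℝ, (∀ᶠ i in atTop, ‖G i c‖ ≤ M) →
      ∀ z ∈ ball c (r / 2), ∀ᶠ i in atTop,
        ‖G i z‖ ≤ 6 * Real.exp (Real.pi * Real.exp (Real.pi * ((M + 1) + 386))) + 1 := by
    intro c r hr hsub M hM z hz
    filter_upwards [hM, homit] with i hi ⟨A, B, hA1, hA2, hB1, hB2, hA, hB⟩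
    exact schottky_step hr (hGd i).differentiableOn hA1 hA2 hB1 hB2
      (fun w hw => hA w (hsub hw)) (fun w hw => hB w (hsub hw)) hi z hz
  set S : Set ℂ := {z | z ∈ V ∧ ∃ M : ℝ, ∀ᶠ i in atTop, ‖G i z‖ ≤ M} with hS
  have hSo : IsOpen S := by
    rw [Metric.isOpen_iff]
    rintro z ⟨hzU, M, hM⟩
    obtain ⟨r, hr, hsub⟩ := Metric.isOpen_iff.1 hVo z hzU
    refine ⟨r / 2, by linarith, fun w hw => ⟨hsub (ball_subset_ball (by linarith) hw), _,
      hloc z r hr hsub M hM w hw⟩⟩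
  have hNS : (N : ℂ) ∈ S := by
    refine ⟨hNV, 0, Filter.Eventually.of_forall fun i => ?_⟩
    have : G i (N : ℂ) = 0 := by
      rw [hG]
      simp only
      rw [hd.iter, sub_self]
    rw [this, norm_zero]
  have hsubS : V ⊆ S := by
    have hpre : IsPreconnected V := isPreconnected_connectedComponentIn
    apply hpre.subset_of_closure_inter_subset hSo ⟨N, hNV, hNS⟩
    rintro z ⟨hzc, hzU⟩
    obtain ⟨r, hr, hsub⟩ := Metric.isOpen_iff.1 hVo z hzU
    obtain ⟨w, ⟨hwU, M, hM⟩, hzw⟩ := Metric.mem_closure_iff.1 hzc (r / 4) (by linarith)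
    refine ⟨hzU, _, hloc w (r / 2) (by linarith) ?_ M hM z ?_⟩
    · refine Subset.trans (ball_subset_ball' ?_) hsub
      rw [dist_comm] at hzw
      linarith
    · rw [mem_ball]; linarith
  obtain ⟨-, M, hM⟩ := hsubS hU
  obtain ⟨i, hi1, hi2⟩ := (hM.and (hpi.eventually (hfar M))).exists
  have h1 : G i ((U^[p] N : ℤ) : ℂ) = ((U^[p] (Ni i) - Ni i : ℤ) : ℂ) := by
    rw [hG]
    simp only
    rw [hd.iter, ← Function.iterate_add_apply, add_comm, Function.iterate_add_apply]
    push_cast; ring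
  rw [h1, Complex.norm_intCast] at hi1
  simp only [hNi] at hi1
  linarith

/-- the component of an integer with an infinite trajectory is a wandering domain -/
theorem IData.wild_wandering (hd : IData f g U) {n : ℤ} (h : WildU U n)
    (hJ : ∀ᶠ i in atTop, JulU f (U^[i] n + 5) ∧ JulU f (U^[i] n - 6))
    (hfar : ∀ p : ℕ, 0 < p → ∀ M : ℝ, ∀ᶠ i in atTop,
      M < |(((U^[p] (U^[i] n)) - U^[i] n : ℤ) : ℝ)|) :
    IsWanderingDomain f (FatouComponent f n) := by
  have hnF := hd.int_mem_fatou n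
  have key : ∀ j k : ℕ, j < k → FatouComponent f (f^[j] (n : ℂ)) ≠
      FatouComponent f (f^[k] (n : ℂ)) := by
    intro j k hjk he
    have hadd : ∀ i : ℕ, U^[i] (U^[j] n) = U^[i + j] n := fun i =>
      (Function.iterate_add_apply U i j n).symm
    refine hd.no_return (wildU_iter h j) (p := k - j) (by omega) ?_ ?_ ?_
    · have h1 := (tendsto_add_atTop_nat j).eventually hJ
      filter_upwards [h1] with i hi
      rw [hadd]
      exact hi
    · intro M
      have h1 := (tendsto_add_atTop_nat j).eventually (hfar (k - j) (by omega) M)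
      filter_upwards [h1] with i hi
      rw [hadd]
      exact hi
    · rw [← Function.iterate_add_apply, show k - j + j = k by omega]
      rw [hd.iter, hd.iter] at he
      rw [he]
      exact mem_connectedComponentIn (hd.int_mem_fatou _)
  refine ⟨fun k => FatouComponent f (f^[k] (n : ℂ)), rfl, fun k => ⟨_, ?_, rfl⟩, fun k => ?_,
    fun j k hjk he => ?_⟩
  · exact fatou_forward_iter hd.isOpen hnF k
  · exact component_map hd.diff.continuous hd.isOpen hnF k
  · rcases lt_or_gt_of_ne hjk with h1 | h1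
    · exact key j k h1 he
    · exact key k j h1 he.symm

end Pool.Agent.Q208.WI
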