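import Mathlib

/-!
# An entire function with prescribed values and critical points at the integers
-/

set_option autoImplicit false

open Filter Topology Metric Set

namespace Pool.Agent.Q208.WI

/-- `sin (π z) / (π z)`, with value `1` at `0`. -/
noncomputable def sc (z : ℂ) : ℂ :=
  if z = 0 then 1 else Complex.sin (Real.pi * z) / (Real.pi * z)

theorem hasDerivAt_sin_pi (z : ℂ) : HasDerivAt (fun z : ℂ => Complex.sin (Real.pi * z))
    (Complex.cos (Real.pi * z) * Real.pi) z := by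
  have hpi : HasDerivAt (fun z : ℂ => (Real.pi : ℂ) * z) Real.pi z := by
    simpa using (hasDerivAt_id z).const_mul (Real.pi : ℂ)
  exact (Complex.hasDerivAt_sin _).comp z hpi

theorem sc_eq_dslope : sc = dslope (fun z : ℂ => Complex.sin (Real.pi * z) / Real.pi) 0 := by
  have hpi : (Real.pi : ℂ) ≠ 0 := by exact_mod_cast Real.pi_ne_zero
  funext z
  unfold sc
  split_ifs with h
  · subst h
    rw [dslope_same]
    have h1 := ((hasDerivAt_sin_pi 0).div_const (Real.pi : ℂ)).deriv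
    rw [h1]
    simp [hpi]
  · rw [dslope_of_ne _ h, slope_def_field]
    simp only [mul_zero, Complex.sin_zero, zero_div, sub_zero]
    field_simp

theorem sc_differentiable : Differentiable ℂ sc := by
  rw [sc_eq_dslope]
  have h1 : Differentiable ℂ (fun z : ℂ => Complex.sin (Real.pi * z) / Real.pi) :=
    fun z => ((hasDerivAt_sin_pi z).div_const _).differentiableAt
  have h2 := (Complex.differentiableOn_dslope (s := univ) (c := (0 : ℂ)) univ_mem).2
    h1.differentiableOn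
  rwa [differentiableOn_univ] at h2

theorem sc_zero : sc 0 = 1 := by simp [sc]

theorem sc_neg (z : ℂ) : sc (-z) = sc z := by
  unfold sc
  by_cases h : z = 0
  · simp [h]
  · rw [if_neg h, if_neg (neg_ne_zero.2 h), mul_neg, Complex.sin_neg, neg_div_neg_eq]

theorem sc_int {n : ℤ} (hn : n ≠ 0) : sc (n : ℂ) = 0 := by
  unfold sc
  rw [if_neg (by exact_mod_cast hn), mul_comm, Complex.sin_int_mul_pi, zero_div]

theorem sc_deriv_zero : HasDerivAt sc 0 0 := by
  have h1 := (sc_differentiable 0).hasDerivAt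
  have h2 : HasDerivAt (fun z : ℂ => sc (-z)) (-(deriv sc 0)) 0 := by
    have h3 : HasDerivAt sc (deriv sc 0) (-(0 : ℂ)) := by simpa using h1
    have h4 := h3.comp (0 : ℂ) (hasDerivAt_neg (0 : ℂ))
    have h5 : deriv sc 0 * -1 = -(deriv sc 0) := by ring
    rw [← h5]
    exact h4
  have h3 : (fun z : ℂ => sc (-z)) = sc := funext sc_neg
  rw [h3] at h2
  have h4 := h1.unique h2
  have h5 : deriv sc 0 = 0 := by
    have : (2 : ℂ) * deriv sc 0 = 0 := by linear_combination h4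
    simpa using this
  rw [h5] at h1
  exact h1

theorem norm_sin_le (z : ℂ) : ‖Complex.sin z‖ ≤ Real.exp ‖z‖ := by
  rw [Complex.sin]
  have h1 : ‖Complex.exp (-z * Complex.I)‖ ≤ Real.exp ‖z‖ := by
    rw [Complex.norm_exp]
    apply Real.exp_le_exp.2
    calc (-z * Complex.I).re ≤ ‖-z * Complex.I‖ := Complex.re_le_norm _
      _ = ‖z‖ := by simp
  have h2 : ‖Complex.exp (z * Complex.I)‖ ≤ Real.exp ‖z‖ := by
    rw [Complex.norm_exp]
    apply Real.exp_le_exp.2
    calc (z * Complex.I).re ≤ ‖z * Complex.I‖ := Complex.re_le_norm _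
      _ = ‖z‖ := by simp
  calc ‖(Complex.exp (-z * Complex.I) - Complex.exp (z * Complex.I)) * Complex.I / 2‖
      = ‖Complex.exp (-z * Complex.I) - Complex.exp (z * Complex.I)‖ / 2 := by
        simp
    _ ≤ (‖Complex.exp (-z * Complex.I)‖ + ‖Complex.exp (z * Complex.I)‖) / 2 := by
        gcongr
        exact norm_sub_le _ _
    _ ≤ Real.exp ‖z‖ := by linarith

/-- The bound for the terms of the series. -/
theorem sc_bound (R : ℝ) (hR : 0 < R) : ∃ C : ℝ, 0 ≤ C ∧ ∀ (n : ℤ) (z : ℂ), ‖z‖ < R →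
    (1 + |(n : ℝ)|) * ‖sc (z - n)‖ ≤ C := by
  obtain ⟨M, hM⟩ := (isCompact_closedBall (0 : ℂ) 1).exists_bound_of_continuousOn
    sc_differentiable.continuous.continuousOn
  set E : ℝ := Real.exp (Real.pi * R) with hE
  have hE0 : 0 < E := Real.exp_pos _
  have hM0 : 0 ≤ M := (norm_nonneg _).trans (hM 0 (by simp))
  have hsin : ∀ (n : ℤ) (z : ℂ), ‖z‖ < R → ‖Complex.sin (Real.pi * (z - n))‖ ≤ E := by
    intro n z hz
    have h1 : Complex.sin (Real.pi * (z - n)) =
        Complex.sin (Real.pi * z) * Complex.cos (n * Real.pi) := by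
      have : (Real.pi : ℂ) * (z - n) = Real.pi * z - n * Real.pi := by ring
      rw [this, Complex.sin_sub, Complex.sin_int_mul_pi]
      ring
    have h2 : ‖Complex.cos (n * Real.pi)‖ ≤ 1 := by
      have h3 : ((n : ℂ) * Real.pi) = (((n : ℝ) * Real.pi : ℝ) : ℂ) := by push_cast; rfl
      rw [h3, ← Complex.ofReal_cos, Complex.norm_real]
      exact Real.abs_cos_le_one _
    rw [h1, norm_mul]
    refine (mul_le_of_le_one_right (norm_nonneg _) h2).trans ?_
    refine (norm_sin_le _).trans (Real.exp_le_exp.2 ?_)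
    rw [norm_mul, Complex.norm_real, Real.norm_of_nonneg Real.pi_pos.le]
    exact mul_le_mul_of_nonneg_left hz.le Real.pi_pos.le
  have hprod : ∀ (n : ℤ) (z : ℂ), ‖z‖ < R → ‖z - n‖ * ‖sc (z - n)‖ ≤ E := by
    intro n z hz
    by_cases h0 : z - n = 0
    · rw [h0, norm_zero, zero_mul]
      exact hE0.le
    · have h1 : (z - n) * sc (z - n) = Complex.sin (Real.pi * (z - n)) / Real.pi := by
        unfold sc
        rw [if_neg h0]
        have hpi : (Real.pi : ℂ) ≠ 0 := by exact_mod_cast Real.pi_ne_zero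
        field_simp
      rw [← norm_mul, h1, norm_div, Complex.norm_real, Real.norm_of_nonneg Real.pi_pos.le]
      refine (div_le_self (norm_nonneg _) ?_).trans (hsin n z hz)
      linarith [Real.pi_gt_three]
  have hsc : ∀ (n : ℤ) (z : ℂ), ‖z‖ < R → ‖sc (z - n)‖ ≤ M + E := by
    intro n z hz
    by_cases h1 : ‖z - n‖ ≤ 1
    · have := hM (z - n) (by simpa using h1)
      linarith
    · push Not at h1
      have h2 := hprod n z hz
      have h3 : 1 * ‖sc (z - n)‖ ≤ ‖z - n‖ * ‖sc (z - n)‖ :=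
        mul_le_mul_of_nonneg_right h1.le (norm_nonneg _)
      linarith
  refine ⟨(1 + R) * (M + E) + E, by positivity, fun n z hz => ?_⟩
  have h1 : |(n : ℝ)| ≤ R + ‖z - n‖ := by
    have h2 : ‖(n : ℂ)‖ = |(n : ℝ)| := by
      rw [Complex.norm_intCast]
    rw [← h2]
    calc ‖(n : ℂ)‖ = ‖z - (z - n)‖ := by congr 1; ring
      _ ≤ ‖z‖ + ‖z - n‖ := norm_sub_le _ _
      _ ≤ R + ‖z - n‖ := by linarith
  calc (1 + |(n : ℝ)|) * ‖sc (z - n)‖ ≤ (1 + (R + ‖z - n‖)) * ‖sc (z - n)‖ := by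
        gcongr
    _ = (1 + R) * ‖sc (z - n)‖ + ‖z - n‖ * ‖sc (z - n)‖ := by ring
    _ ≤ (1 + R) * (M + E) + E := by
        have h3 := hsc n z hz
        have h4 := hprod n z hz
        have h5 : (1 + R) * ‖sc (z - n)‖ ≤ (1 + R) * (M + E) :=
          mul_le_mul_of_nonneg_left h3 (by linarith)
        linarith

theorem summable_int : Summable (fun n : ℤ => 1 / (1 + |(n : ℝ)|) ^ 2) := by
  have h1 : Summable (fun n : ℕ => 1 / (1 + (n : ℝ)) ^ 2) := by
    have h2 : Summable (fun n : ℕ => 1 / ((n : ℝ)) ^ 2) := by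
      exact Real.summable_one_div_nat_pow.2 (by norm_num)
    have h3 := (summable_nat_add_iff 1).2 h2
    refine h3.congr (fun n => ?_)
    push_cast
    rw [add_comm]
  apply Summable.of_nat_of_neg
  · refine h1.congr (fun n => ?_)
    simp
  · refine h1.congr (fun n => ?_)
    simp

/-- The term of the series. -/
noncomputable def term (e : ℤ → ℂ) (n : ℤ) (z : ℂ) : ℂ := e n * sc (z - n) ^ 3

theorem term_differentiable (e : ℤ → ℂ) (n : ℤ) : Differentiable ℂ (term e n) := by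
  have h1 : Differentiable ℂ (fun z : ℂ => sc (z - n)) :=
    sc_differentiable.comp (differentiable_id.sub_const _)
  exact (h1.pow 3).const_mul _

theorem term_deriv_int (e : ℤ → ℂ) (n m : ℤ) : HasDerivAt (term e n) 0 (m : ℂ) := by
  have h1 : HasDerivAt (fun z : ℂ => z - n) 1 (m : ℂ) := (hasDerivAt_id _).sub_const _
  have h2 := (sc_differentiable ((m : ℂ) - n)).hasDerivAt.comp (m : ℂ) h1
  have h3 := (h2.pow 3).const_mul (e n)
  have h4 : e n * (((3 : ℕ) : ℂ) * (sc ∘ fun z : ℂ => z - n) (m : ℂ) ^ (3 - 1) *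
      (deriv sc ((m : ℂ) - n) * 1)) = 0 := by
    by_cases h : m = n
    · have h5 : (m : ℂ) - n = 0 := by rw [h]; ring
      rw [h5, sc_deriv_zero.deriv]
      ring
    · have h5 : sc ((m : ℂ) - n) = 0 := by
        have h6 : m - n ≠ 0 := sub_ne_zero.2 h
        have := sc_int h6
        push_cast at this
        exact this
      simp [h5]
  rw [h4] at h3
  exact h3

/-- The entire function. -/
noncomputable def G (e : ℤ → ℂ) (z : ℂ) : ℂ := ∑' n : ℤ, term e n z

theorem term_bound' {A : ℝ} (hA : 0 ≤ A) {R : ℝ} (hR : 0 < R) : ∃ C : ℝ, 0 ≤ C ∧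
    ∀ e : ℤ → ℂ, (∀ n, ‖e n‖ ≤ A * (1 + |(n : ℝ)|)) → ∀ (n : ℤ) (z : ℂ), z ∈ ball (0 : ℂ) R →
      ‖term e n z‖ ≤ C * (1 / (1 + |(n : ℝ)|) ^ 2) := by
  obtain ⟨C, hC0, hC⟩ := sc_bound R hR
  refine ⟨A * C ^ 3, by positivity, fun e he n z hz => ?_⟩
  have hz' : ‖z‖ < R := by simpa using hz
  have h1 := hC n z hz'
  have hn : 0 < 1 + |(n : ℝ)| := by positivity
  have h2 : ‖sc (z - n)‖ ≤ C / (1 + |(n : ℝ)|) := by
    rw [le_div_iff₀ hn, mul_comm]
    exact h1
  unfold term
  rw [norm_mul, norm_pow]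
  calc ‖e n‖ * ‖sc (z - n)‖ ^ 3 ≤ (A * (1 + |(n : ℝ)|)) * (C / (1 + |(n : ℝ)|)) ^ 3 := by
        gcongr
        exact he n
    _ = A * C ^ 3 * (1 / (1 + |(n : ℝ)|) ^ 2) := by
        field_simp

theorem term_bound {e : ℤ → ℂ} {A : ℝ} (hA : 0 ≤ A) (he : ∀ n, ‖e n‖ ≤ A * (1 + |(n : ℝ)|))
    {R : ℝ} (hR : 0 < R) : ∃ C : ℝ, ∀ (n : ℤ) (z : ℂ), z ∈ ball (0 : ℂ) R →
      ‖term e n z‖ ≤ C * (1 / (1 + |(n : ℝ)|) ^ 2) := by
  obtain ⟨C, _, hC⟩ := term_bound' hA hR
  exact ⟨C, hC e he⟩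

/-- Coefficients which vanish on a long interval give a small function. -/
theorem G_small {A : ℝ} (hA : 0 ≤ A) {R ε : ℝ} (hR : 0 < R) (hε : 0 < ε) : ∃ N : ℕ,
    ∀ e : ℤ → ℂ, (∀ n, ‖e n‖ ≤ A * (1 + |(n : ℝ)|)) → (∀ n : ℤ, |n| ≤ N → e n = 0) →
      ∀ z : ℂ, ‖z‖ < R → ‖G e z‖ ≤ ε := by
  obtain ⟨C, hC0, hC⟩ := term_bound' hA hR
  have hsum := summable_int.mul_left C
  have htail := tendsto_tsum_compl_atTop_zero (fun n : ℤ => C * (1 / (1 + |(n : ℝ)|) ^ 2))
  rw [Metric.tendsto_atTop] at htail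
  obtain ⟨S, hS⟩ := htail ε hε
  obtain ⟨N, hN⟩ : ∃ N : ℕ, S ⊆ Finset.Icc (-(N : ℤ)) N := by
    refine ⟨S.sup (fun n => n.natAbs), fun n hn => ?_⟩
    have h1 : n.natAbs ≤ S.sup (fun n => n.natAbs) := Finset.le_sup (f := fun n : ℤ => n.natAbs) hn
    rw [Finset.mem_Icc]
    omega
  refine ⟨N, fun e he h0 z hz => ?_⟩
  set I := Finset.Icc (-(N : ℤ)) N with hI
  have h1 := hS I hN
  rw [Real.dist_eq, sub_zero] at h1
  have hterm : ∀ n : ℤ, ‖term e n z‖ ≤ Set.indicator {n : ℤ | n ∉ I}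
      (fun n : ℤ => C * (1 / (1 + |(n : ℝ)|) ^ 2)) n := by
    intro n
    by_cases hn : n ∈ I
    · rw [Set.indicator_of_notMem (by simpa using hn)]
      have h2 : e n = 0 := by
        apply h0
        rw [hI, Finset.mem_Icc] at hn
        rw [abs_le]
        exact hn
      unfold term
      rw [h2, zero_mul, norm_zero]
    · rw [Set.indicator_of_mem (by simpa using hn)]
      exact hC e he n z (by simpa using hz)
  have hsI : Summable (Set.indicator {n : ℤ | n ∉ I}
      (fun n : ℤ => C * (1 / (1 + |(n : ℝ)|) ^ 2))) := hsum.indicator _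
  have hsn : Summable (fun n : ℤ => ‖term e n z‖) :=
    Summable.of_nonneg_of_le (fun _ => norm_nonneg _) hterm hsI
  calc ‖G e z‖ ≤ ∑' n : ℤ, ‖term e n z‖ := norm_tsum_le_tsum_norm hsn
    _ ≤ ∑' n : ℤ, Set.indicator {n : ℤ | n ∉ I}
        (fun n : ℤ => C * (1 / (1 + |(n : ℝ)|) ^ 2)) n := hsn.tsum_le_tsum hterm hsI
    _ = ∑' n : {n : ℤ // n ∉ I}, C * (1 / (1 + |(n : ℝ)|) ^ 2) := by
        rw [← tsum_subtype]
        rfl
    _ ≤ |∑' n : {n : ℤ // n ∉ I}, C * (1 / (1 + |(n : ℝ)|) ^ 2)| := le_abs_self _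
    _ ≤ ε := h1.le

theorem G_spec {e : ℤ → ℂ} {A : ℝ} (hA : 0 ≤ A) (he : ∀ n, ‖e n‖ ≤ A * (1 + |(n : ℝ)|)) :
    Differentiable ℂ (G e) ∧ (∀ m : ℤ, G e m = e m) ∧ ∀ m : ℤ, HasDerivAt (G e) 0 (m : ℂ) := by
  have hdiff : Differentiable ℂ (G e) := by
    intro z
    obtain ⟨C, hC⟩ := term_bound hA he (R := ‖z‖ + 1) (by positivity)
    have h1 := Complex.differentiableOn_tsum_of_summable_norm (summable_int.mul_left C)
      (fun n => (term_differentiable e n).differentiableOn) isOpen_ball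
      (fun n w hw => hC n w hw)
    exact (h1 z (by simp)).differentiableAt (isOpen_ball.mem_nhds (by simp))
  refine ⟨hdiff, ?_, ?_⟩
  · intro m
    unfold G
    rw [tsum_eq_single m]
    · unfold term
      rw [sub_self, sc_zero]
      ring
    · intro n hn
      unfold term
      have h6 : m - n ≠ 0 := sub_ne_zero.2 (Ne.symm hn)
      have := sc_int h6
      push_cast at this
      rw [this]
      ring
  · intro m
    obtain ⟨C, hC⟩ := term_bound hA he (R := ‖(m : ℂ)‖ + 1) (by positivity)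
    have h1 := Complex.hasSum_deriv_of_summable_norm (summable_int.mul_left C)
      (fun n => (term_differentiable e n).differentiableOn) isOpen_ball
      (fun n w hw => hC n w hw) (z := (m : ℂ)) (by simp)
    have h2 : (fun n : ℤ => deriv (term e n) (m : ℂ)) = fun _ => 0 :=
      funext fun n => (term_deriv_int e n m).deriv
    rw [h2] at h1
    have h3 := h1.unique hasSum_zero
    have h4 := (hdiff (m : ℂ)).hasDerivAt
    have h5 : deriv (G e) (m : ℂ) = 0 := h3
    rw [h5] at h4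
    exact h4

end Pool.Agent.Q208.WI
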