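import Mathlib
import Pool.Agent.Q208.WI.Entire
import Pool.Agent.H723R2.LSWWander

/-!
# The quadratic estimate near the integers for the series, and its values on the real line
-/

set_option autoImplicit false

open Filter Topology Metric Set

namespace Pool.Agent.Q208.WI

theorem norm_cos_int (n : ℤ) : ‖Complex.cos (n * Real.pi)‖ ≤ 1 := by
  have h3 : ((n : ℂ) * Real.pi) = (((n : ℝ) * Real.pi : ℝ) : ℂ) := by push_cast; rfl
  rw [h3, ← Complex.ofReal_cos, Complex.norm_real]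
  exact Real.abs_cos_le_one _

theorem sc_mul (z : ℂ) : z * sc z = Complex.sin (Real.pi * z) / Real.pi := by
  have hpi : (Real.pi : ℂ) ≠ 0 := by exact_mod_cast Real.pi_ne_zero
  unfold sc
  split_ifs with h
  · simp [h]
  · field_simp

theorem sc_shift (h : ℂ) (j : ℤ) : ‖h - j‖ * ‖sc (h - j)‖ ≤ ‖h‖ * ‖sc h‖ := by
  rw [← norm_mul, ← norm_mul, sc_mul, sc_mul, norm_div, norm_div]
  have h1 : Complex.sin (Real.pi * (h - j)) =
      Complex.sin (Real.pi * h) * Complex.cos (j * Real.pi) := by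
    have : (Real.pi : ℂ) * (h - j) = Real.pi * h - j * Real.pi := by ring
    rw [this, Complex.sin_sub, Complex.sin_int_mul_pi]
    ring
  rw [h1, norm_mul]
  have h2 := norm_cos_int j
  gcongr
  exact mul_le_of_le_one_right (norm_nonneg _) h2

/-- the values near the other integers -/
theorem sc_far : ∃ M : ℝ, 0 ≤ M ∧ ∀ (h : ℂ) (j : ℤ), ‖h‖ ≤ 1 → j ≠ 0 →
    ‖sc (h - j)‖ ≤ 2 * M * ‖h‖ / |(j : ℝ)| := by
  obtain ⟨M, hM⟩ := (isCompact_closedBall (0 : ℂ) 1).exists_bound_of_continuousOn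
    sc_differentiable.continuous.continuousOn
  have hM0 : 0 ≤ M := (norm_nonneg _).trans (hM 0 (by simp))
  refine ⟨M, hM0, fun h j hh hj => ?_⟩
  have hj1 : (1 : ℝ) ≤ |(j : ℝ)| := by
    have : (1 : ℤ) ≤ |j| := Int.one_le_abs hj
    exact_mod_cast this
  have hnj : ‖(j : ℂ)‖ = |(j : ℝ)| := Complex.norm_intCast _
  have htri : |(j : ℝ)| ≤ ‖h‖ + ‖h - j‖ := by
    rw [← hnj]
    calc ‖(j : ℂ)‖ = ‖h - (h - j)‖ := by congr 1; ring
      _ ≤ _ := norm_sub_le _ _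
  rw [le_div_iff₀ (by linarith)]
  by_cases hc : |(j : ℝ)| / 2 ≤ ‖h - j‖
  · have h1 := sc_shift h j
    have h2 := hM h (by simpa using hh)
    calc ‖sc (h - j)‖ * |(j : ℝ)| ≤ ‖sc (h - j)‖ * (2 * ‖h - j‖) := by
          gcongr
          linarith
      _ = 2 * (‖h - j‖ * ‖sc (h - j)‖) := by ring
      _ ≤ 2 * (‖h‖ * ‖sc h‖) := by gcongr
      _ ≤ 2 * (‖h‖ * M) := by gcongr
      _ = 2 * M * ‖h‖ := by ring
  · push Not at hc
    have h1 : |(j : ℝ)| < 2 := by linarith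
    have h2 : |(j : ℝ)| = 1 := by
      have h3 : |j| < 2 := by exact_mod_cast h1
      have h4 : (1 : ℤ) ≤ |j| := Int.one_le_abs hj
      have h5 : |j| = 1 := by omega
      exact_mod_cast h5
    rw [h2] at hc htri ⊢
    have h3 := hM (h - j) (by
      rw [mem_closedBall, dist_zero_right]
      linarith)
    nlinarith

theorem sc_cube : ∃ C : ℝ, 0 ≤ C ∧ ∀ h : ℂ, ‖h‖ ≤ 1 → ‖sc h ^ 3 - 1‖ ≤ C * ‖h‖ ^ 2 := by
  apply Pool.Agent.H723R2.LSW.quad (F := fun h => sc h ^ 3 - 1)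
  · exact (sc_differentiable.pow 3).sub_const _
  · simp [sc_zero]
  · have h1 := (sc_deriv_zero.pow 3).sub_const (1 : ℂ)
    simpa using h1

theorem summable_shift (m : ℤ) : Summable (fun n : ℤ => 1 / (1 + |((n - m : ℤ) : ℝ)|) ^ 2) ∧
    ∑' n : ℤ, 1 / (1 + |((n - m : ℤ) : ℝ)|) ^ 2 = ∑' n : ℤ, 1 / (1 + |(n : ℝ)|) ^ 2 := by
  have h1 := (Equiv.subRight m).summable_iff (f := fun n : ℤ => 1 / (1 + |(n : ℝ)|) ^ 2)
  have h2 := (Equiv.subRight m).tsum_eq (fun n : ℤ => 1 / (1 + |(n : ℝ)|) ^ 2)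
  constructor
  · exact h1.2 summable_int
  · exact h2

/-- The quadratic estimate. -/
theorem G_near {A : ℝ} (hA : 0 ≤ A) : ∃ C : ℝ, 0 ≤ C ∧ ∀ e : ℤ → ℂ,
    (∀ n, ‖e n‖ ≤ A * (1 + |(n : ℝ)|)) → ∀ (m : ℤ) (z : ℂ), ‖z - m‖ ≤ 1 →
      ‖G e z - e m‖ ≤ C * (|(m : ℝ)| + 1) * ‖z - m‖ ^ 2 := by
  obtain ⟨M, hM0, hM⟩ := sc_far
  obtain ⟨C₂, hC0, hC⟩ := sc_cube
  set S : ℝ := ∑' n : ℤ, 1 / (1 + |(n : ℝ)|) ^ 2 with hS
  set C₁ : ℝ := A * C₂ + A * (2 * M) ^ 3 * 8 with hC1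
  have hC10 : 0 ≤ C₁ := by positivity
  have hS0 : 0 ≤ S := tsum_nonneg (fun n => by positivity)
  refine ⟨C₁ * S, by positivity, fun e he m z hz => ?_⟩
  set h : ℂ := z - m with hh
  obtain ⟨hsum, heq⟩ := summable_shift m
  -- summability of the terms
  obtain ⟨B, hB⟩ := term_bound hA he (R := ‖z‖ + 1) (by positivity)
  have hsumT : Summable (fun n : ℤ => term e n z) :=
    Summable.of_norm_bounded (summable_int.mul_left B) (fun n => hB n z (by simp))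
  have hsumE : Summable (fun n : ℤ => if n = m then e m else 0) :=
    (hasSum_ite_eq m (e m)).summable
  have hG : G e z - e m = ∑' n : ℤ, (term e n z - if n = m then e m else 0) := by
    rw [hsumT.tsum_sub hsumE, tsum_ite_eq]
    rfl
  have hbound : ∀ n : ℤ, ‖term e n z - if n = m then e m else 0‖ ≤
      C₁ * (|(m : ℝ)| + 1) * ‖h‖ ^ 2 * (1 / (1 + |((n - m : ℤ) : ℝ)|) ^ 2) := by
    intro n
    by_cases hn : n = m
    · subst hn
      rw [if_pos rfl]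
      unfold term
      rw [← hh, sub_self, Int.cast_zero, abs_zero, add_zero, one_pow, div_one, mul_one]
      have h1 : e n * sc h ^ 3 - e n = e n * (sc h ^ 3 - 1) := by ring
      rw [h1, norm_mul]
      have h2 := hC h hz
      have h3 := he n
      calc ‖e n‖ * ‖sc h ^ 3 - 1‖ ≤ (A * (1 + |(n : ℝ)|)) * (C₂ * ‖h‖ ^ 2) := by gcongr
        _ = (A * C₂) * (|(n : ℝ)| + 1) * ‖h‖ ^ 2 := by ring
        _ ≤ C₁ * (|(n : ℝ)| + 1) * ‖h‖ ^ 2 := by
            gcongr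
            rw [hC1]
            have : 0 ≤ A * (2 * M) ^ 3 * 8 := by positivity
            linarith
    · rw [if_neg hn, sub_zero]
      unfold term
      set j : ℤ := n - m with hj
      have hj0 : j ≠ 0 := sub_ne_zero.2 hn
      have hzj : z - n = h - j := by
        rw [hh, hj]
        push_cast
        ring
      have hj1 : (1 : ℝ) ≤ |(j : ℝ)| := by
        have : (1 : ℤ) ≤ |j| := Int.one_le_abs hj0
        exact_mod_cast this
      have h1 := hM h j hz hj0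
      have h2 : 1 + |(n : ℝ)| ≤ (|(m : ℝ)| + 1) * (1 + |(j : ℝ)|) := by
        have h3 : |(n : ℝ)| ≤ |(m : ℝ)| + |(j : ℝ)| := by
          have h4 : (n : ℝ) = m + j := by rw [hj]; push_cast; ring
          rw [h4]
          exact abs_add_le _ _
        nlinarith [abs_nonneg (m : ℝ), abs_nonneg (j : ℝ)]
      rw [hzj, norm_mul, norm_pow]
      have h5 : ‖h‖ ^ 3 ≤ ‖h‖ ^ 2 := pow_le_pow_of_le_one (norm_nonneg _) hz (by norm_num)
      have hjpos : 0 < |(j : ℝ)| := by linarith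
      have h6 : (1 + |(j : ℝ)|) / |(j : ℝ)| ^ 3 ≤ 8 * (1 / (1 + |(j : ℝ)|) ^ 2) := by
        rw [mul_one_div, div_le_div_iff₀ (by positivity) (by positivity)]
        have h7 : 1 + |(j : ℝ)| ≤ 2 * |(j : ℝ)| := by linarith
        calc (1 + |(j : ℝ)|) * (1 + |(j : ℝ)|) ^ 2 = (1 + |(j : ℝ)|) ^ 3 := by ring
          _ ≤ (2 * |(j : ℝ)|) ^ 3 := by gcongr
          _ = 8 * |(j : ℝ)| ^ 3 := by ring
      calc ‖e n‖ * ‖sc (h - j)‖ ^ 3
          ≤ (A * (1 + |(n : ℝ)|)) * (2 * M * ‖h‖ / |(j : ℝ)|) ^ 3 := by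
            gcongr
            exact he n
        _ ≤ (A * ((|(m : ℝ)| + 1) * (1 + |(j : ℝ)|))) * (2 * M * ‖h‖ / |(j : ℝ)|) ^ 3 := by
            gcongr
        _ = A * (2 * M) ^ 3 * (|(m : ℝ)| + 1) * ‖h‖ ^ 3 *
            ((1 + |(j : ℝ)|) / |(j : ℝ)| ^ 3) := by
            field_simp
        _ ≤ A * (2 * M) ^ 3 * (|(m : ℝ)| + 1) * ‖h‖ ^ 2 * (8 * (1 / (1 + |(j : ℝ)|) ^ 2)) := by
            gcongr
        _ = (A * (2 * M) ^ 3 * 8) * (|(m : ℝ)| + 1) * ‖h‖ ^ 2 * (1 / (1 + |(j : ℝ)|) ^ 2) := by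
            ring
        _ ≤ C₁ * (|(m : ℝ)| + 1) * ‖h‖ ^ 2 * (1 / (1 + |(j : ℝ)|) ^ 2) := by
            gcongr
            rw [hC1]
            have : 0 ≤ A * C₂ := by positivity
            linarith
  have hsB : Summable (fun n : ℤ => C₁ * (|(m : ℝ)| + 1) * ‖h‖ ^ 2 *
      (1 / (1 + |((n - m : ℤ) : ℝ)|) ^ 2)) := hsum.mul_left _
  have hsn : Summable (fun n : ℤ => ‖term e n z - if n = m then e m else 0‖) :=
    Summable.of_nonneg_of_le (fun _ => norm_nonneg _) hbound hsB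
  rw [hG]
  calc ‖∑' n : ℤ, (term e n z - if n = m then e m else 0)‖
      ≤ ∑' n : ℤ, ‖term e n z - if n = m then e m else 0‖ := norm_tsum_le_tsum_norm hsn
    _ ≤ ∑' n : ℤ, C₁ * (|(m : ℝ)| + 1) * ‖h‖ ^ 2 * (1 / (1 + |((n - m : ℤ) : ℝ)|) ^ 2) :=
        hsn.tsum_le_tsum hbound hsB
    _ = C₁ * (|(m : ℝ)| + 1) * ‖h‖ ^ 2 * S := by rw [tsum_mul_left, heq]
    _ = C₁ * S * (|(m : ℝ)| + 1) * ‖h‖ ^ 2 := by ring

/-- The real version of `sc`. -/
noncomputable def scR (x : ℝ) : ℝ := if x = 0 then 1 else Real.sin (Real.pi * x) / (Real.pi * x)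

theorem scR_coe (x : ℝ) : ((scR x : ℝ) : ℂ) = sc (x : ℂ) := by
  unfold scR sc
  by_cases h : x = 0
  · simp [h]
  · have h' : (x : ℂ) ≠ 0 := by exact_mod_cast h
    rw [if_neg h, if_neg h']
    push_cast
    rfl

theorem G_real (e : ℤ → ℝ) (x : ℝ) :
    ((∑' n : ℤ, e n * scR (x - n) ^ 3 : ℝ) : ℂ) = G (fun n => (e n : ℂ)) (x : ℂ) := by
  unfold G
  rw [Complex.ofReal_tsum]
  refine tsum_congr (fun n => ?_)
  unfold term
  push_cast
  rw [scR_coe]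
  push_cast
  rfl

end Pool.Agent.Q208.WI
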