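import Mathlib
import Pool.Agent.Q208.WI.Near
import Pool.Agent.Q208.WI.Gen

/-!
# The interpolations `F w`, and perturbations with wandering integers
-/

set_option autoImplicit false

open Filter Topology Metric Set

namespace Pool.Agent.Q208.WI

open Pool.Agent.H384R2.Fatou Pool.Agent.H723R2.LSW

/-- The perturbed map. -/
def Uw (w : ℤ → Fin 2) (x : ℤ) : ℤ := T (x + ((w x : ℕ) : ℤ))

/-- The interpolation. -/
noncomputable def Fw (w : ℤ → Fin 2) (z : ℂ) : ℂ :=
  f₀ z + G (fun n : ℤ => ((Uw w n - T n : ℤ) : ℂ)) z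

theorem dbound (w : ℤ → Fin 2) (n : ℤ) :
    ‖((Uw w n - T n : ℤ) : ℂ)‖ ≤ 4 * (1 + |(n : ℝ)|) := by
  rw [Complex.norm_intCast]
  have h1 : |Uw w n - T n| ≤ 4 * (1 + |n|) := by
    have h2 : (0 : ℤ) ≤ ((w n : ℕ) : ℤ) := by positivity
    have h3 : ((w n : ℕ) : ℤ) < 2 := by exact_mod_cast (w n).2
    unfold Uw T
    rw [abs_le]
    rcases abs_cases n with h4 | h4 <;> split_ifs <;> constructor <;> omega
  exact_mod_cast h1

theorem data (w : ℤ → Fin 2) : ∃ g : ℝ → ℝ, IData (Fw w) g (Uw w) := by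
  obtain ⟨h1, h2, h3⟩ := G_spec (e := fun n : ℤ => ((Uw w n - T n : ℤ) : ℂ)) (A := 4)
    (by norm_num) (dbound w)
  refine ⟨fun x => F x + ∑' n : ℤ, ((Uw w n - T n : ℤ) : ℝ) * scR (x - n) ^ 3, ?_⟩
  constructor
  · exact f₀_differentiable.add h1
  · intro x
    have h4 := G_real (fun n : ℤ => ((Uw w n - T n : ℤ) : ℝ)) x
    push_cast at h4
    push_cast
    rw [h4, F_coe]
    unfold Fw
    push_cast
    rfl
  · intro n
    unfold Fw
    rw [h2, f₀_int]
    push_cast
    ring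
  · intro n
    have := (f₀_deriv_int n).add (h3 n)
    rw [add_zero] at this
    exact this
  · obtain ⟨C₁, hC1, h4⟩ := f₀_near
    obtain ⟨C₂, hC2, h5⟩ := G_near (A := 4) (by norm_num)
    refine ⟨C₁ + C₂, by linarith, fun m z hz => ?_⟩
    have h6 := h4 m z hz
    have h7 := h5 _ (dbound w) m z hz
    have h8 : Fw w z - (Uw w m : ℂ) = (f₀ z - (T m : ℂ)) +
        (G (fun n : ℤ => ((Uw w n - T n : ℤ) : ℂ)) z - ((Uw w m - T m : ℤ) : ℂ)) := by
      unfold Fw
      push_cast
      ring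
    rw [h8]
    calc _ ≤ ‖f₀ z - (T m : ℂ)‖ +
          ‖G (fun n : ℤ => ((Uw w n - T n : ℤ) : ℂ)) z - ((Uw w m - T m : ℤ) : ℂ)‖ :=
          norm_add_le _ _
      _ ≤ C₁ * (|(m : ℝ)| + 1) * ‖z - m‖ ^ 2 + C₂ * (|(m : ℝ)| + 1) * ‖z - m‖ ^ 2 :=
          add_le_add h6 h7
      _ = (C₁ + C₂) * (|(m : ℝ)| + 1) * ‖z - m‖ ^ 2 := by ring
  · intro m
    have h : |Uw w m| + 1 ≤ 3 * (|m| + 1) := by
      have h2 : (0 : ℤ) ≤ ((w m : ℕ) : ℤ) := by positivity
      have h3 : ((w m : ℕ) : ℤ) < 2 := by exact_mod_cast (w m).2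
      unfold Uw T
      split_ifs with h
      · rcases abs_cases ((m + ((w m : ℕ) : ℤ)) / 2) with h1 | h1 <;>
          rcases abs_cases m with h4 | h4 <;> omega
      · rcases abs_cases ((3 * (m + ((w m : ℕ) : ℤ)) + 1) / 2) with h1 | h1 <;>
          rcases abs_cases m with h4 | h4 <;> omega
    have h2 : ((|Uw w m| + 1 : ℤ) : ℝ) ≤ ((3 * (|m| + 1) : ℤ) : ℝ) := by exact_mod_cast h
    push_cast at h2
    exact h2
  · refine ⟨0, 10, ?_⟩
    have h2 : (0 : ℤ) ≤ ((w 0 : ℕ) : ℤ) := by positivity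
    have h3 : ((w 0 : ℕ) : ℤ) < 2 := by exact_mod_cast (w 0).2
    have h4 : (0 : ℤ) ≤ ((w 10 : ℕ) : ℤ) := by positivity
    have h5 : ((w 10 : ℕ) : ℤ) < 2 := by exact_mod_cast (w 10).2
    unfold Uw T
    split_ifs <;> omega

/-! ### A divergent orbit -/

/-- the map which always multiplies by `3` -/
def V (x : ℤ) : ℤ := if x % 2 = 0 then (3 * x + 4) / 2 else (3 * x + 1) / 2

def Orb (a n : ℤ) : Prop := ∃ k : ℕ, n = V^[k] a

open Classical in
/-- the coins are `1` at the even places of the orbit of `a` under `V` -/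
noncomputable def wsp (a : ℤ) : ℤ → Fin 2 := fun n => if n % 2 = 0 ∧ Orb a n then 1 else 0

theorem V_ge (x : ℤ) : 3 * x + 1 ≤ 2 * V x := by
  unfold V
  split_ifs <;> omega

theorem orb_ge {a : ℤ} (ha : 20 ≤ a) (k : ℕ) : a + k ≤ V^[k] a := by
  induction k with
  | zero => simp
  | succ k ih =>
    rw [Function.iterate_succ_apply']
    have := V_ge (V^[k] a)
    push_cast
    omega

theorem orb_mono {a : ℤ} (ha : 20 ≤ a) {k l : ℕ} (hkl : k < l) :
    3 * V^[k] a + 1 ≤ 2 * V^[l] a := by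
  obtain ⟨j, rfl⟩ : ∃ j, l = k + 1 + j := ⟨l - (k + 1), by omega⟩
  induction j with
  | zero =>
    rw [add_zero, Function.iterate_succ_apply']
    exact V_ge _
  | succ j ih =>
    have h1 := ih (by omega)
    have h2 := orb_ge ha (k + 1 + j)
    rw [show k + 1 + (j + 1) = (k + 1 + j) + 1 by ring, Function.iterate_succ_apply']
    have h3 := V_ge (V^[k + 1 + j] a)
    push_cast at h2
    omega

theorem sparse {a : ℤ} (ha : 20 ≤ a) {x y : ℤ} (hx : Orb a x) (hy : Orb a y) (hxy : x < y) :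
    x + 10 ≤ y := by
  obtain ⟨k, rfl⟩ := hx
  obtain ⟨l, rfl⟩ := hy
  have h1 := orb_ge ha k
  rcases lt_trichotomy k l with h | h | h
  · have := orb_mono ha h
    push_cast at h1
    omega
  · rw [h] at hxy
    omega
  · have := orb_mono ha h
    have h2 := orb_ge ha l
    push_cast at h1 h2
    omega

theorem orb_ge' {a : ℤ} (ha : 20 ≤ a) {x : ℤ} (hx : Orb a x) : a ≤ x := by
  obtain ⟨k, rfl⟩ := hx
  have := orb_ge ha k
  push_cast at this
  omega

theorem U_orb (a : ℤ) {x : ℤ} (hx : Orb a x) : Uw (wsp a) x = V x := by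
  by_cases h : x % 2 = 0
  · have h1 : wsp a x = 1 := if_pos ⟨h, hx⟩
    have h2 : (((1 : Fin 2) : ℕ) : ℤ) = 1 := rfl
    unfold Uw V T
    rw [h1, h2]
    split_ifs <;> omega
  · have h1 : wsp a x = 0 := if_neg (fun hc => h hc.1)
    have h2 : (((0 : Fin 2) : ℕ) : ℤ) = 0 := rfl
    unfold Uw V T
    rw [h1, h2]
    split_ifs <;> omega

theorem U_orb_iter (a : ℤ) (k : ℕ) : (Uw (wsp a))^[k] a = V^[k] a := by
  induction k with
  | zero => rfl
  | succ k ih =>
    rw [Function.iterate_succ_apply', Function.iterate_succ_apply', ih]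
    exact U_orb a ⟨k, rfl⟩

theorem U_gen (a : ℤ) {x : ℤ} (hx : ¬ Orb a x) : Uw (wsp a) x = T x := by
  unfold Uw wsp
  rw [if_neg (fun hc => hx hc.2)]
  simp

theorem wsp_zero {a : ℤ} (ha : 20 ≤ a) {x : ℤ} (hx : x < a) : wsp a x = 0 := by
  unfold wsp
  rw [if_neg]
  rintro ⟨_, h2⟩
  have := orb_ge' ha h2
  omega

/-- both ends of the gap are off the orbit -/
def Gen (a m : ℤ) : Prop := ¬ Orb a m ∧ ¬ Orb a (m + 1)

theorem gen_small {a : ℤ} (ha : 20 ≤ a) {m : ℤ} (hm : m + 1 < a) : Gen a m :=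
  ⟨fun h => by have := orb_ge' ha h; omega, fun h => by have := orb_ge' ha h; omega⟩

theorem gen_near {a : ℤ} (ha : 20 ≤ a) (m : ℤ) : Gen a m ∨
    (19 ≤ m ∧ (Gen a (m + 1) ∨ Gen a (m + 2))) := by
  by_cases h : Gen a m
  · exact Or.inl h
  right
  have h' : Orb a m ∨ Orb a (m + 1) := by
    unfold Gen at h
    tauto
  rcases h' with h1 | h1
  · have h2 := orb_ge' ha h1
    refine ⟨by omega, Or.inl ⟨fun h3 => ?_, fun h3 => ?_⟩⟩
    · have := sparse ha h1 h3 (by omega)
      omega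
    · have := sparse ha h1 h3 (by omega)
      omega
  · have h2 := orb_ge' ha h1
    refine ⟨by omega, Or.inr ⟨fun h3 => ?_, fun h3 => ?_⟩⟩
    · have := sparse ha h1 h3 (by omega)
      omega
    · have := sparse ha h1 h3 (by omega)
      omega

theorem jul_base {a : ℤ} (ha : 20 ≤ a) : JulU (Fw (wsp a)) 1 := by
  obtain ⟨g, hd⟩ := data (wsp a)
  have u1 : Uw (wsp a) 1 = 2 := by
    rw [U_gen a (fun h => by have := orb_ge' ha h; omega)]
    decide
  have u2 : Uw (wsp a) 2 = 1 := by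
    rw [U_gen a (fun h => by have := orb_ge' ha h; omega)]
    decide
  have e1 : g 1 = 2 := by
    have := hd.gint 1
    rw [u1] at this
    exact_mod_cast this
  have e2 : g 2 = 1 := by
    have := hd.gint 2
    rw [u2] at this
    exact_mod_cast this
  obtain ⟨x, hx, hxf⟩ : ∃ x ∈ Icc (1 : ℝ) 2, g x = x := by
    have hc : ContinuousOn (fun x : ℝ => g x - x) (Icc (1:ℝ) 2) :=
      (hd.cont.sub continuous_id).continuousOn
    have h := intermediate_value_Icc' (by norm_num : (1 : ℝ) ≤ 2) hc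
    have h0 : (0 : ℝ) ∈ Icc (g 2 - 2) (g 1 - 1) := by
      rw [e1, e2, mem_Icc]
      norm_num
    obtain ⟨x, hx, hx0⟩ := h h0
    exact ⟨x, hx, by linarith⟩
  refine hd.jul_fixed (m := 1) (e := 1) (a := 1) (k := 0) (p := 2) (x := x) (by norm_num) ?_
    rfl (Or.inl rfl) (by simpa using hx.1) (by have := hx.2; push_cast; linarith) hxf ?_
  · show Uw (wsp a) (Uw (wsp a) 1) = 1
    rw [u1, u2]
  · intro h
    have h' : x = 1 := by simpa using h
    rw [h', e1] at hxf
    norm_num at hxf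

theorem jul_gen {a : ℤ} (ha : 20 ≤ a) (k : ℕ) : ∀ m : ℤ, 1 ≤ m → m ≤ k → Gen a m →
    JulU (Fw (wsp a)) m := by
  obtain ⟨g, hd⟩ := data (wsp a)
  induction k with
  | zero => intro m h1 h2; exfalso; push_cast at h2; omega
  | succ k ih =>
    intro m h1 h2 hg
    rcases eq_or_lt_of_le h1 with h | h
    · rw [← h]; exact jul_base ha
    · have um := U_gen a hg.1
      have um1 := U_gen a hg.2
      push_cast at h2
      rcases Int.even_or_odd' m with ⟨c, rfl | rfl⟩
      · have e1 : T (2 * c) = c := T_even c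
        have e2 : T (2 * c + 1) = 3 * c + 2 := T_odd c
        obtain ⟨j, hj1, hj2, hj3, hj4⟩ : ∃ j, c ≤ j ∧ j + 1 ≤ 3 * c + 2 ∧ j < 2 * c ∧ Gen a j := by
          rcases gen_near ha c with h3 | ⟨h3, h4 | h4⟩
          · exact ⟨c, le_refl _, by omega, by omega, h3⟩
          · exact ⟨c + 1, by omega, by omega, by omega, h4⟩
          · exact ⟨c + 2, by omega, by omega, by omega, h4⟩
        refine hd.jul_step (ih j (by omega) (by omega) hj4) ?_ ?_
        · rw [um, um1, e1, e2]; exact le_trans (min_le_left _ _) hj1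
        · rw [um, um1, e1, e2]; exact le_trans hj2 (le_max_right _ _)
      · have e1 : T (2 * c + 1) = 3 * c + 2 := T_odd c
        have e2 : T (2 * c + 1 + 1) = c + 1 := by
          rw [show 2 * c + 1 + 1 = 2 * (c + 1) by ring, T_even]
        obtain ⟨j, hj1, hj2, hj3, hj4⟩ : ∃ j, c + 1 ≤ j ∧ j + 1 ≤ 3 * c + 2 ∧ j < 2 * c + 1 ∧
            Gen a j := by
          rcases gen_near ha (c + 1) with h3 | ⟨h3, h4 | h4⟩
          · exact ⟨c + 1, le_refl _, by omega, by omega, h3⟩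
          · exact ⟨c + 1 + 1, by omega, by omega, by omega, h4⟩
          · exact ⟨c + 1 + 2, by omega, by omega, by omega, h4⟩
        refine hd.jul_step (ih j (by omega) (by omega) hj4) ?_ ?_
        · rw [um, um1, e1, e2]; exact le_trans (min_le_right _ _) hj1
        · rw [um, um1, e1, e2]; exact le_trans hj2 (le_max_left _ _)

/-- The start of the divergent orbit lies in a wandering domain. -/
theorem wandering {a : ℤ} (ha : 20 ≤ a) :
    IsWanderingDomain (Fw (wsp a)) (FatouComponent (Fw (wsp a)) (a : ℂ)) := by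
  obtain ⟨g, hd⟩ := data (wsp a)
  refine hd.wild_wandering ?_ ?_ ?_
  · intro i j hij
    rw [U_orb_iter, U_orb_iter] at hij
    rcases lt_trichotomy i j with h | h | h
    · have h1 := orb_mono ha h
      have h2 := orb_ge ha i
      push_cast at h2
      omega
    · exact h
    · have h1 := orb_mono ha h
      have h2 := orb_ge ha j
      push_cast at h2
      omega
  · refine Filter.Eventually.of_forall (fun i => ?_)
    rw [U_orb_iter]
    have h2 := orb_ge ha i
    have ho : Orb a (V^[i] a) := ⟨i, rfl⟩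
    push_cast at h2
    refine ⟨jul_gen ha (V^[i] a + 5).toNat _ (by omega) (by omega) ⟨fun h => ?_, fun h => ?_⟩,
      jul_gen ha (V^[i] a - 6).toNat _ (by omega) (by omega) ⟨fun h => ?_, fun h => ?_⟩⟩
    · have := sparse ha ho h (by omega)
      omega
    · have := sparse ha ho h (by omega)
      omega
    · have := sparse ha h ho (by omega)
      omega
    · have := sparse ha h ho (by omega)
      omega
  · intro p hp M
    obtain ⟨K, hK⟩ := exists_nat_gt (2 * M)
    filter_upwards [eventually_ge_atTop K] with i hi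
    have h1 : (Uw (wsp a))^[p] ((Uw (wsp a))^[i] a) = V^[p + i] a := by
      rw [← Function.iterate_add_apply, U_orb_iter]
    rw [h1, U_orb_iter]
    have h2 := orb_mono ha (show i < p + i by omega)
    have h3 := orb_ge ha i
    have h4 : (i : ℤ) + 20 ≤ 2 * (V^[p + i] a - V^[i] a) := by omega
    have h5 : ((i : ℤ) + 20 : ℝ) ≤ 2 * ((V^[p + i] a - V^[i] a : ℤ) : ℝ) := by exact_mod_cast h4
    have h6 : (K : ℝ) ≤ i := by exact_mod_cast hi
    have h7 := le_abs_self ((V^[p + i] a - V^[i] a : ℤ) : ℝ)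
    push_cast at h5 h7 ⊢
    linarith

end Pool.Agent.Q208.WI
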