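import Mathlib
import Pool.Agent.Q208.WI.Spec

/-!
# Perturbations with wandering integers are dense
-/

set_option autoImplicit false

open Filter Topology Metric Set

namespace Pool.Agent.Q208.WI

open Pool.Agent.H384R2.Fatou Pool.Agent.H723R2.LSW

/-- A gap with a tame left end and a wild right end contains a point of the Julia set. -/
theorem IData.jul_tame_wild {f : ℂ → ℂ} {g : ℝ → ℝ} {U : ℤ → ℤ} (hd : IData f g U) {m : ℤ}
    (h1 : ¬ WildU U m) (h2 : WildU U (m + 1)) : JulU f m := by
  by_contra hcon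
  have hall : ∀ y : ℝ, (m : ℝ) ≤ y → y ≤ m + 1 → (y : ℂ) ∈ FatouSet f := by
    intro y h1 h2
    by_contra h3
    exact hcon ⟨y, h1, h2, h3⟩
  obtain ⟨k, p, a, hp, ha, hk⟩ := tameU_hits h1
  have hmem : ((m + 1 : ℤ) : ℂ) ∈ FatouComponent f (m : ℂ) := by
    have := segU_component hall (x := (m : ℝ) + 1) (y := (m : ℝ)) ⟨by linarith, le_refl _⟩
      ⟨le_refl _, by linarith⟩
    push_cast at this ⊢
    exact this
  have hb := basin_of_hits (f := f) (a := (a : ℂ)) (p := p) (k := k) hd.diff hp
    (by rw [hd.iter, ha]) (hd.iter_deriv a p hp) (by rw [hd.iter, hk]) _ hmem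
  have hinf := wildU_tendsto h2
  have h3 : Tendsto (fun i : ℕ => k + p * i) atTop atTop := by
    apply tendsto_atTop_mono (f := fun i : ℕ => i)
    · intro i
      have : 1 * i ≤ p * i := Nat.mul_le_mul_right i hp
      omega
    · exact tendsto_id
  have h4 := hinf.comp h3
  have h5 := hb.norm
  have h6 : (fun i : ℕ => ‖f^[k + p * i] ((m + 1 : ℤ) : ℂ)‖) =
      (fun j => |((U^[j] (m + 1) : ℤ) : ℝ)|) ∘ (fun i : ℕ => k + p * i) := by
    funext i
    simp only [Function.comp_apply]
    rw [hd.iter, Complex.norm_intCast]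
  rw [h6] at h5
  exact not_tendsto_nhds_of_tendsto_atTop h4 _ h5

section
variable {w : ℤ → Fin 2} {M : ℤ}

theorem wild_orb {a : ℤ} (ha : 20 ≤ a)
    (horb : ∀ k : ℕ, (Uw w)^[k] a = V^[k] a) : WildU (Uw w) a := by
  intro i j hij
  rw [horb, horb] at hij
  rcases lt_trichotomy i j with h | h | h
  · have h1 := orb_mono ha h
    have h2 := orb_ge ha i
    omega
  · exact h
  · have h1 := orb_mono ha h
    have h2 := orb_ge ha j
    omega

theorem jul_gen' (hM : 19 ≤ M) (hgen : ∀ x, M < x → ¬ Orb (M + 1) x → Uw w x = T x)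
    (hJ : JulU (Fw w) M) (k : ℕ) : ∀ m : ℤ, M < m → m ≤ k → Gen (M + 1) m → JulU (Fw w) m := by
  have ha : 20 ≤ M + 1 := by omega
  obtain ⟨g, hd⟩ := data w
  induction k with
  | zero => intro m h1 h2; exfalso; push_cast at h2; omega
  | succ k ih =>
    intro m h1 h2 hg
    have um := hgen m h1 hg.1
    have um1 := hgen (m + 1) (by omega) hg.2
    push_cast at h2
    rcases Int.even_or_odd' m with ⟨c, rfl | rfl⟩
    · have e1 : T (2 * c) = c := T_even c
      have e2 : T (2 * c + 1) = 3 * c + 2 := T_odd c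
      obtain ⟨j, hj1, hj2, hj3⟩ : ∃ j, c ≤ j ∧ j + 1 ≤ 3 * c + 2 ∧ JulU (Fw w) j := by
        by_cases hc : c ≤ M
        · exact ⟨M, hc, by omega, hJ⟩
        · push Not at hc
          rcases gen_near ha c with h3 | ⟨h3, h4 | h4⟩
          · exact ⟨c, le_refl _, by omega, ih c hc (by omega) h3⟩
          · exact ⟨c + 1, by omega, by omega, ih (c + 1) (by omega) (by omega) h4⟩
          · exact ⟨c + 2, by omega, by omega, ih (c + 2) (by omega) (by omega) h4⟩
      refine hd.jul_step hj3 ?_ ?_
      · rw [um, um1, e1, e2]; exact le_trans (min_le_left _ _) hj1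
      · rw [um, um1, e1, e2]; exact le_trans hj2 (le_max_right _ _)
    · have e1 : T (2 * c + 1) = 3 * c + 2 := T_odd c
      have e2 : T (2 * c + 1 + 1) = c + 1 := by
        rw [show 2 * c + 1 + 1 = 2 * (c + 1) by ring, T_even]
      obtain ⟨j, hj1, hj2, hj3⟩ : ∃ j, c + 1 ≤ j ∧ j + 1 ≤ 3 * c + 2 ∧ JulU (Fw w) j := by
        by_cases hc : c + 1 ≤ M
        · exact ⟨M, hc, by omega, hJ⟩
        · push Not at hc
          rcases gen_near ha (c + 1) with h3 | ⟨h3, h4 | h4⟩
          · exact ⟨c + 1, le_refl _, by omega, ih (c + 1) hc (by omega) h3⟩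
          · exact ⟨c + 1 + 1, by omega, by omega, ih (c + 1 + 1) (by omega) (by omega) h4⟩
          · exact ⟨c + 1 + 2, by omega, by omega, ih (c + 1 + 2) (by omega) (by omega) h4⟩
      refine hd.jul_step hj3 ?_ ?_
      · rw [um, um1, e1, e2]; exact le_trans (min_le_right _ _) hj1
      · rw [um, um1, e1, e2]; exact le_trans hj2 (le_max_left _ _)

/-- A sufficient condition for a wandering integer. -/
theorem wandering' (hM : 19 ≤ M) (hgen : ∀ x, M < x → ¬ Orb (M + 1) x → Uw w x = T x)
    (horb : ∀ k : ℕ, (Uw w)^[k] (M + 1) = V^[k] (M + 1)) (htame : ¬ WildU (Uw w) M) :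
    IsWanderingDomain (Fw w) (FatouComponent (Fw w) ((M + 1 : ℤ) : ℂ)) := by
  have ha : 20 ≤ M + 1 := by omega
  obtain ⟨g, hd⟩ := data w
  have hwild := wild_orb ha horb
  have hJ : JulU (Fw w) M := hd.jul_tame_wild htame hwild
  refine hd.wild_wandering hwild ?_ ?_
  · filter_upwards [eventually_ge_atTop 1] with i hi
    rw [horb]
    have h2 := orb_mono ha (show 0 < i by omega)
    simp only [Function.iterate_zero, id_eq] at h2
    have ho : Orb (M + 1) (V^[i] (M + 1)) := ⟨i, rfl⟩
    refine ⟨jul_gen' hM hgen hJ (V^[i] (M + 1) + 5).toNat _ (by omega) (by omega)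
      ⟨fun h => ?_, fun h => ?_⟩,
      jul_gen' hM hgen hJ (V^[i] (M + 1) - 6).toNat _ (by omega) (by omega)
      ⟨fun h => ?_, fun h => ?_⟩⟩
    · have := sparse ha ho h (by omega)
      omega
    · have := sparse ha ho h (by omega)
      omega
    · have := sparse ha h ho (by omega)
      omega
    · have := sparse ha h ho (by omega)
      omega
  · intro p hp B
    obtain ⟨K, hK⟩ := exists_nat_gt (2 * B)
    filter_upwards [eventually_ge_atTop K] with i hi
    have h1 : (Uw w)^[p] ((Uw w)^[i] (M + 1)) = V^[p + i] (M + 1) := by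
      rw [← Function.iterate_add_apply, horb]
    rw [h1, horb]
    have h2 := orb_mono ha (show i < p + i by omega)
    have h3 := orb_ge ha i
    have h4 : (i : ℤ) + 20 ≤ 2 * (V^[p + i] (M + 1) - V^[i] (M + 1)) := by omega
    have h5 : ((i : ℤ) + 20 : ℝ) ≤ 2 * ((V^[p + i] (M + 1) - V^[i] (M + 1) : ℤ) : ℝ) := by
      exact_mod_cast h4
    have h6 : (K : ℝ) ≤ i := by exact_mod_cast hi
    have h7 := le_abs_self ((V^[p + i] (M + 1) - V^[i] (M + 1) : ℤ) : ℝ)
    push_cast at h5 h7 ⊢
    linarith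

end

open Classical in
/-- The perturbation: `w₀` on `[-N, N]`, contracting up to `M`, then a divergent orbit. -/
noncomputable def wdense (w₀ : ℤ → Fin 2) (N M : ℤ) : ℤ → Fin 2 := fun n =>
  if |n| ≤ N then w₀ n else if |n| ≤ M then (if n % 2 = 0 then 0 else 1)
  else if n % 2 = 0 ∧ Orb (M + 1) n then 1 else 0

theorem closed_tame {U : ℤ → ℤ} {M : ℤ} (h : ∀ x, |x| ≤ M → |U x| ≤ M) {x : ℤ} (hx : |x| ≤ M) :
    ¬ WildU U x := by
  intro hw
  have h1 := wildU_tendsto hw
  have h2 : ∀ k : ℕ, |U^[k] x| ≤ M := by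
    intro k
    induction k with
    | zero => exact hx
    | succ k ih =>
      rw [Function.iterate_succ_apply']
      exact h _ ih
  obtain ⟨k, hk⟩ := (h1.eventually (eventually_gt_atTop (M : ℝ))).exists
  have h3 : ((|U^[k] x| : ℤ) : ℝ) ≤ (M : ℝ) := by exact_mod_cast h2 k
  push_cast at h3
  linarith

theorem dense_wandering (w₀ : ℤ → Fin 2) (N : ℕ) : ∃ w : ℤ → Fin 2,
    (∀ n : ℤ, |n| ≤ N → w n = w₀ n) ∧
    ∃ n : ℤ, IsWanderingDomain (Fw w) (FatouComponent (Fw w) (n : ℂ)) := by
  set M : ℤ := 2 * N + 20 with hMdef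
  set w := wdense w₀ N M with hw
  have hN0 : (0 : ℤ) ≤ N := by positivity
  have hM19 : 19 ≤ M := by omega
  have ha : 20 ≤ M + 1 := by omega
  refine ⟨w, fun n hn => if_pos hn, M + 1, wandering' hM19 ?_ ?_ ?_⟩
  · intro x hx ho
    have h1 : w x = 0 := by
      rw [hw]
      unfold wdense
      rw [if_neg (by rw [abs_le]; omega), if_neg (by rw [abs_le]; omega), if_neg (fun h => ho h.2)]
    unfold Uw
    rw [h1]
    simp
  · intro k
    induction k with
    | zero => rfl
    | succ k ih =>
      rw [Function.iterate_succ_apply', Function.iterate_succ_apply', ih]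
      have hge := orb_ge ha k
      set x := V^[k] (M + 1) with hx
      have ho : Orb (M + 1) x := ⟨k, rfl⟩
      by_cases h : x % 2 = 0
      · have h1 : w x = 1 := by
          rw [hw]
          unfold wdense
          rw [if_neg (by rw [abs_le]; omega), if_neg (by rw [abs_le]; omega), if_pos ⟨h, ho⟩]
        have h2 : (((1 : Fin 2) : ℕ) : ℤ) = 1 := rfl
        unfold Uw V T
        rw [h1, h2]
        split_ifs <;> omega
      · have h1 : w x = 0 := by
          rw [hw]
          unfold wdense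
          rw [if_neg (by rw [abs_le]; omega), if_neg (by rw [abs_le]; omega),
            if_neg (fun hc => h hc.1)]
        have h2 : (((0 : Fin 2) : ℕ) : ℤ) = 0 := rfl
        unfold Uw V T
        rw [h1, h2]
        split_ifs <;> omega
  · refine closed_tame (M := M) ?_ (by rw [abs_of_nonneg (by omega)])
    intro x hx
    by_cases h : |x| ≤ N
    · have h2 : (0 : ℤ) ≤ ((w x : ℕ) : ℤ) := by positivity
      have h3 : ((w x : ℕ) : ℤ) < 2 := by exact_mod_cast (w x).2
      rw [abs_le] at h ⊢
      unfold Uw T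
      split_ifs <;> omega
    · by_cases h0 : x % 2 = 0
      · have h1 : w x = 0 := by
          rw [hw]
          unfold wdense
          rw [if_neg h, if_pos hx, if_pos h0]
        have h2 : (((0 : Fin 2) : ℕ) : ℤ) = 0 := rfl
        unfold Uw T
        rw [h1, h2]
        rw [abs_le] at hx ⊢
        split_ifs <;> omega
      · have h1 : w x = 1 := by
          rw [hw]
          unfold wdense
          rw [if_neg h, if_pos hx, if_neg h0]
        have h2 : (((1 : Fin 2) : ℕ) : ℤ) = 1 := rfl
        unfold Uw T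
        rw [h1, h2]
        rw [abs_le] at hx ⊢
        split_ifs <;> omega

/-! ### The tame perturbations are open and dense -/

/-- the orbit of a tame integer depends on finitely many coins -/
theorem tame_open (n : ℤ) : IsOpen {w : ℤ → Fin 2 | ¬ WildU (Uw w) n} := by
  rw [isOpen_iff_forall_mem_open]
  intro w hw
  obtain ⟨k, p, a, hp, ha, hk⟩ := tameU_hits hw
  set S : Finset ℤ := (Finset.range (k + p)).image (fun i => (Uw w)^[i] n) with hS
  refine ⟨{v | ∀ x ∈ S, v x = w x}, ?_, ?_, fun x _ => rfl⟩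
  · intro v hv
    have hit : ∀ i : ℕ, i ≤ k + p → (Uw v)^[i] n = (Uw w)^[i] n := by
      intro i
      induction i with
      | zero => intro _; rfl
      | succ i ih =>
        intro hi
        rw [Function.iterate_succ_apply', Function.iterate_succ_apply', ih (by omega)]
        have h1 : v ((Uw w)^[i] n) = w ((Uw w)^[i] n) := by
          apply hv
          rw [hS, Finset.mem_image]
          exact ⟨i, by rw [Finset.mem_range]; omega, rfl⟩
        unfold Uw
        unfold Uw at h1
        rw [h1]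
    intro hwild
    have h2 := hwild (k + p) k (by
      rw [hit _ le_rfl, hit _ (by omega), hk, add_comm, Function.iterate_add_apply, hk, ha])
    omega
  · have h1 : {v : ℤ → Fin 2 | ∀ x ∈ S, v x = w x} = ⋂ x ∈ S, {v | v x = w x} := by
      ext v
      simp
    rw [h1]
    refine isOpen_biInter_finset (fun x _ => ?_)
    have h2 : Continuous (fun v : ℤ → Fin 2 => v x) := continuous_apply x
    exact (isOpen_discrete ({w x} : Set (Fin 2))).preimage h2

/-- contracting outside `[-N, N]` -/
def wcon (w₀ : ℤ → Fin 2) (N : ℤ) : ℤ → Fin 2 := fun n =>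
  if |n| ≤ N then w₀ n else if n % 2 = 0 then 0 else 1

theorem tame_dense (n : ℤ) : Dense {w : ℤ → Fin 2 | ¬ WildU (Uw w) n} := by
  intro w₀
  rw [_root_.mem_closure_iff]
  intro O hO hw₀
  rw [isOpen_pi_iff] at hO
  obtain ⟨S, u, hu, hsub⟩ := hO w₀ hw₀
  set N : ℕ := (S.sup (fun x => x.natAbs)) with hN
  refine ⟨wcon w₀ N, hsub ?_, ?_⟩
  · intro x hx
    have h1 : x.natAbs ≤ N := Finset.le_sup (f := fun x : ℤ => x.natAbs) hx
    have h1' : |x| ≤ (N : ℤ) := by
      rw [Int.abs_eq_natAbs]
      exact_mod_cast h1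
    have h2 : wcon w₀ N x = w₀ x := if_pos h1'
    rw [h2]
    exact (hu x hx).2
  · set M : ℤ := 2 * N + 2 + |n| with hM
    have hN0 : (0 : ℤ) ≤ N := by positivity
    have hn0 : 0 ≤ |n| := abs_nonneg n
    refine closed_tame (M := M) ?_ (by omega)
    intro x hx
    by_cases h : |x| ≤ N
    · have h2 : (0 : ℤ) ≤ ((wcon w₀ N x : ℕ) : ℤ) := by positivity
      have h3 : ((wcon w₀ N x : ℕ) : ℤ) < 2 := by exact_mod_cast (wcon w₀ N x).2
      rw [abs_le] at h ⊢
      unfold Uw T
      split_ifs <;> omega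
    · by_cases h0 : x % 2 = 0
      · have h1 : wcon w₀ N x = 0 := by
          unfold wcon
          rw [if_neg h, if_pos h0]
        have h2 : (((0 : Fin 2) : ℕ) : ℤ) = 0 := rfl
        unfold Uw T
        rw [h1, h2]
        rw [abs_le] at hx ⊢
        split_ifs <;> omega
      · have h1 : wcon w₀ N x = 1 := by
          unfold wcon
          rw [if_neg h, if_neg h0]
        have h2 : (((1 : Fin 2) : ℕ) : ℤ) = 1 := rfl
        unfold Uw T
        rw [h1, h2]
        rw [abs_le] at hx ⊢
        split_ifs <;> omega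

/-- a tame integer does not lie in a wandering domain -/
theorem tame_not_wandering (w : ℤ → Fin 2) {n : ℤ} (h : ¬ WildU (Uw w) n) :
    ¬ IsWanderingDomain (Fw w) (FatouComponent (Fw w) (n : ℂ)) := by
  obtain ⟨g, hd⟩ := data w
  obtain ⟨k, p, a, hp, ha, hk⟩ := tameU_hits h
  apply not_wandering_of_hits (hd.int_mem_fatou n) hp (k := k)
  rw [hd.iter, hd.iter, add_comm k p, Function.iterate_add_apply, hk, ha]

theorem meagre_wandering : IsMeagre {w : ℤ → Fin 2 |
    ∃ n : ℤ, IsWanderingDomain (Fw w) (FatouComponent (Fw w) (n : ℂ))} := by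
  rw [IsMeagre]
  have h1 : (⋂ n : ℤ, {w : ℤ → Fin 2 | ¬ WildU (Uw w) n}) ∈ residual (ℤ → Fin 2) := by
    rw [countable_iInter_mem]
    exact fun n => residual_of_dense_open (tame_open n) (tame_dense n)
  refine mem_of_superset h1 ?_
  intro w hw hcon
  obtain ⟨n, hn⟩ := hcon
  exact tame_not_wandering w (by simpa using mem_iInter.1 hw n) hn

end Pool.Agent.Q208.WI
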