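import Mathlib
import Pool.Agent.Q208.WI.Dense

/-!
# Sparse perturbations with wandering integers; continuity in the perturbation
-/

set_option autoImplicit false

open Filter Topology Metric Set

namespace Pool.Agent.Q208.WI

open Pool.Agent.H384R2.Fatou Pool.Agent.H723R2.LSW

theorem orb_pow {a : ℤ} (ha : 20 ≤ a) (k : ℕ) : 20 * (3 / 2 : ℝ) ^ k ≤ ((V^[k] a : ℤ) : ℝ) := by
  induction k with
  | zero =>
    simp only [pow_zero, mul_one, Function.iterate_zero, id_eq]
    exact_mod_cast ha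
  | succ k ih =>
    rw [Function.iterate_succ_apply']
    have h1 := V_ge (V^[k] a)
    have h2 : (3 * ((V^[k] a : ℤ) : ℝ) + 1) ≤
        2 * ((V (V^[k] a) : ℤ) : ℝ) := by exact_mod_cast h1
    rw [pow_succ]
    linarith

/-- The number of places which are changed. -/
theorem count_le {a : ℤ} (ha : 20 ≤ a) (x : ℕ) :
    (({n : ℤ | |n| ≤ x ∧ wsp a n ≠ 0}.ncard : ℕ) : ℝ) ≤ 3 * Real.log (x + 1) := by
  set L : ℝ := Real.log (x + 1) / Real.log (3 / 2) with hL
  have hx0 : (0 : ℝ) ≤ x := Nat.cast_nonneg x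
  have hlog : 0 ≤ Real.log ((x : ℝ) + 1) := Real.log_nonneg (by linarith)
  have h32 : (0.4 : ℝ) ≤ Real.log (3 / 2) := by
    have h1 : Real.exp 0.4 ≤ 3 / 2 := by
      have h2 := Real.exp_bound' (x := 0.4) (by norm_num) (by norm_num) (n := 5) (by norm_num)
      refine h2.trans ?_
      norm_num [Finset.sum_range_succ, Nat.factorial]
    rw [Real.le_log_iff_exp_le (by norm_num)]
    exact h1
  by_cases hx : x < 20
  · have hempty : {n : ℤ | |n| ≤ x ∧ wsp a n ≠ 0} = ∅ := by
      rw [Set.eq_empty_iff_forall_notMem]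
      rintro n ⟨h1, h2⟩
      apply h2
      apply wsp_zero ha
      have := le_abs_self n
      omega
    rw [hempty, Set.ncard_empty]
    push_cast
    linarith
  · push Not at hx
    set K : ℕ := ⌊Real.log (x / 20) / Real.log (3 / 2)⌋₊ with hK
    have hx20 : (20 : ℝ) ≤ x := by exact_mod_cast hx
    have hsub : {n : ℤ | |n| ≤ x ∧ wsp a n ≠ 0} ⊆
        ((Finset.range (K + 1)).image (fun k => V^[k] a) : Finset ℤ) := by
      rintro n ⟨h1, h2⟩
      have h3 : n % 2 = 0 ∧ Orb a n := by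
        by_contra hc
        apply h2
        unfold wsp
        rw [if_neg hc]
      obtain ⟨k, hk⟩ := h3.2
      rw [Finset.coe_image, Set.mem_image]
      refine ⟨k, ?_, hk.symm⟩
      have h4 := orb_pow ha k
      rw [← hk] at h4
      have h5 : (n : ℝ) ≤ x := by
        have h6 : n ≤ (x : ℤ) := (le_abs_self n).trans h1
        exact_mod_cast h6
      have h6 : (3 / 2 : ℝ) ^ k ≤ x / 20 := by
        rw [le_div_iff₀ (by norm_num)]
        linarith
      have h7 : k * Real.log (3 / 2) ≤ Real.log (x / 20) := by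
        rw [← Real.log_pow]
        exact Real.log_le_log (by positivity) h6
      have h8 : (k : ℝ) ≤ Real.log (x / 20) / Real.log (3 / 2) := by
        rw [le_div_iff₀ (by linarith)]
        exact h7
      have h9 : k ≤ K := Nat.le_floor h8
      simp only [Finset.coe_range, Set.mem_Iio]
      omega
    have h1 : {n : ℤ | |n| ≤ x ∧ wsp a n ≠ 0}.ncard ≤ K + 1 := by
      refine (Set.ncard_le_ncard hsub (Finset.finite_toSet _)).trans ?_
      rw [Set.ncard_coe_finset]
      refine Finset.card_image_le.trans ?_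
      rw [Finset.card_range]
    have h2 : (K : ℝ) ≤ Real.log (x / 20) / Real.log (3 / 2) :=
      Nat.floor_le (div_nonneg (Real.log_nonneg (by rw [le_div_iff₀ (by norm_num)]; linarith))
        (by linarith))
    have h3 : (({n : ℤ | |n| ≤ x ∧ wsp a n ≠ 0}.ncard : ℕ) : ℝ) ≤ K + 1 := by
      exact_mod_cast h1
    have h4 : Real.log (x / 20) / Real.log (3 / 2) ≤ Real.log (x / 20) / 0.4 := by
      apply div_le_div_of_nonneg_left _ (by norm_num) h32
      exact Real.log_nonneg (by rw [le_div_iff₀ (by norm_num)]; linarith)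
    have h5 : Real.log (x / 20) = Real.log x - Real.log 20 :=
      Real.log_div (by positivity) (by norm_num)
    have h6 : (1 : ℝ) ≤ Real.log 20 := by
      rw [Real.le_log_iff_exp_le (by norm_num)]
      have := Real.exp_one_lt_d9
      linarith
    have h7 : Real.log x ≤ Real.log (x + 1) := Real.log_le_log (by positivity) (by linarith)
    have h8 : Real.log (x / 20) / 0.4 + 1 ≤ 3 * Real.log (x + 1) := by
      rw [h5]
      have : (Real.log x - Real.log 20) / 0.4 = 2.5 * Real.log x - 2.5 * Real.log 20 := by ring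
      rw [this]
      have h9 : 0 ≤ Real.log (x : ℝ) := Real.log_nonneg (by linarith)
      linarith
    linarith


/-- The series is additive in its coefficients. -/
theorem G_sub {A : ℝ} (hA : 0 ≤ A) {e e' : ℤ → ℂ} (he : ∀ n, ‖e n‖ ≤ A * (1 + |(n : ℝ)|))
    (he' : ∀ n, ‖e' n‖ ≤ A * (1 + |(n : ℝ)|)) (z : ℂ) :
    G e z - G e' z = G (fun n => e n - e' n) z := by
  obtain ⟨C, hC⟩ := term_bound hA he (R := ‖z‖ + 1) (by positivity)
  obtain ⟨C', hC'⟩ := term_bound hA he' (R := ‖z‖ + 1) (by positivity)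
  have h1 : Summable (fun n : ℤ => term e n z) :=
    Summable.of_norm_bounded (summable_int.mul_left C) (fun n => hC n z (by simp))
  have h2 : Summable (fun n : ℤ => term e' n z) :=
    Summable.of_norm_bounded (summable_int.mul_left C') (fun n => hC' n z (by simp))
  unfold G
  rw [← h1.tsum_sub h2]
  refine tsum_congr (fun n => ?_)
  unfold term
  ring

/-- Continuity of `w ↦ Fw w` for locally uniform convergence. -/
theorem Fw_close (R ε : ℝ) (hε : 0 < ε) : ∃ N : ℕ, ∀ w w' : ℤ → Fin 2,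
    (∀ n : ℤ, |n| ≤ N → w n = w' n) → ∀ z : ℂ, ‖z‖ ≤ R → ‖Fw w z - Fw w' z‖ ≤ ε := by
  obtain ⟨N, hN⟩ := G_small (A := 8) (by norm_num) (R := |R| + 1) (ε := ε) (by positivity) hε
  refine ⟨N, fun w w' h z hz => ?_⟩
  have h1 : Fw w z - Fw w' z = G (fun n : ℤ => ((Uw w n - T n : ℤ) : ℂ) -
      ((Uw w' n - T n : ℤ) : ℂ)) z := by
    rw [← G_sub (A := 4) (by norm_num) (dbound w) (dbound w') z]
    unfold Fw
    ring
  rw [h1]
  refine hN _ ?_ ?_ z (by linarith [le_abs_self R])
  · intro n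
    have h2 := dbound w n
    have h3 := dbound w' n
    calc _ ≤ ‖((Uw w n - T n : ℤ) : ℂ)‖ + ‖((Uw w' n - T n : ℤ) : ℂ)‖ := norm_sub_le _ _
      _ ≤ 8 * (1 + |(n : ℝ)|) := by linarith
  · intro n hn
    have h2 : Uw w n = Uw w' n := by
      unfold Uw
      rw [h n hn]
    rw [h2, sub_self]

theorem Fw_zero : Fw 0 = f₀ := by
  funext z
  have h1 : (fun n : ℤ => ((Uw 0 n - T n : ℤ) : ℂ)) = fun _ => 0 := by
    funext n
    unfold Uw
    simp
  unfold Fw
  rw [h1]
  unfold G term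
  simp

/-- Sparse perturbations near `f₀` with a wandering integer. -/
theorem near_sparse (R ε : ℝ) (hε : 0 < ε) :
    ∃ w : ℤ → Fin 2, (∀ z : ℂ, ‖z‖ ≤ R → ‖Fw w z - f₀ z‖ ≤ ε) ∧
      (∀ n : ℤ, |(n : ℝ)| ≤ R → w n = 0) ∧
      (∀ x : ℕ, (({n : ℤ | |n| ≤ x ∧ w n ≠ 0}.ncard : ℕ) : ℝ) ≤ 3 * Real.log (x + 1)) ∧
      ∃ n : ℤ, IsWanderingDomain (Fw w) (FatouComponent (Fw w) (n : ℂ)) := by
  obtain ⟨N, hN⟩ := Fw_close R ε hε
  obtain ⟨M, hM⟩ := exists_nat_ge (max (max (N : ℝ) R) 20)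
  set a : ℤ := M + 1 with ha
  have hM20 : (20 : ℝ) ≤ M := (le_max_right _ _).trans hM
  have ha20 : 20 ≤ a := by
    have : 20 ≤ M := by exact_mod_cast hM20
    omega
  have hw0 : ∀ n : ℤ, |(n : ℝ)| ≤ M → wsp a n = 0 := by
    intro n hn
    have h1 : |n| ≤ (M : ℤ) := by exact_mod_cast hn
    apply wsp_zero ha20
    have := le_abs_self n
    omega
  refine ⟨wsp a, ?_, ?_, count_le ha20, a, wandering ha20⟩
  · intro z hz
    rw [← Fw_zero]
    refine hN (wsp a) 0 (fun n hn => ?_) z hz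
    refine hw0 n ?_
    have h3 : (|n| : ℝ) ≤ (N : ℝ) := by exact_mod_cast hn
    exact h3.trans (((le_max_left _ _).trans (le_max_left _ _)).trans hM)
  · intro n hn
    exact hw0 n (hn.trans (((le_max_right _ _).trans (le_max_left _ _)).trans hM))

/-- Density. -/
theorem dense_set : Dense {w : ℤ → Fin 2 |
    ∃ n : ℤ, IsWanderingDomain (Fw w) (FatouComponent (Fw w) (n : ℂ))} := by
  intro w₀
  rw [_root_.mem_closure_iff]
  intro O hO hw₀
  rw [isOpen_pi_iff] at hO
  obtain ⟨S, u, hu, hsub⟩ := hO w₀ hw₀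
  set N : ℕ := (S.sup (fun x => x.natAbs)) with hN
  obtain ⟨w, h1, h2⟩ := dense_wandering w₀ N
  refine ⟨w, hsub ?_, h2⟩
  intro x hx
  have h3 : x.natAbs ≤ N := Finset.le_sup (f := fun x : ℤ => x.natAbs) hx
  have h4 : |x| ≤ (N : ℤ) := by
    rw [Int.abs_eq_natAbs]
    exact_mod_cast h3
  rw [h1 x h4]
  exact (hu x hx).2

end Pool.Agent.Q208.WI
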